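import Pool.Agent.helper32.Cant.Defs

set_option autoImplicit false

/-!
# MP_3c0a64_an, gauge form: definitions (rows `ga:X`)

Everything is relative to a configuration `c : Cfg n` (radii `c.R x`, centres `x / 3^n`) with its
points `u = 3^n x + R(x) E(w) + τ` in `ZMod (3^(2n))`. A state `p` is a pair (translation, word).
-/

namespace Pool.Agent.GA

open Finset
open Pool.Agent.helper32.Cant

/-! ### windows and characters -/

/-- the cyclic distance to `0` -/
noncomputable def nrm {M : ℕ} (v : ZMod M) : ℝ := |((v.valMinAbs : ℤ) : ℝ)|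

/-- the window of width `ℓ` -/
noncomputable def chi {M : ℕ} (ℓ : ℝ) (v : ZMod M) : ℝ := Real.exp (-(nrm v / ℓ))

/-- the character of frequency `ξ` -/
noncomputable def ch {M : ℕ} [NeZero M] (ξ v : ZMod M) : ℂ := ZMod.stdAddChar (ξ * v)

/-- states: (translation, word) -/
abbrev St (n : ℕ) : Type := ZMod (3 ^ (2 * n)) × Word n

/-- the point `u` of the centre `x` -/
def uv {n : ℕ} (c : Cfg n) (p : St n) (x : Fin (3 ^ n)) : ZMod (3 ^ (2 * n)) :=
  uu c ((x, p.2), p.1)

/-- the weight of the centre `x`: the window of width `3^(2n-κ)` at `u` -/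
noncomputable def wt {n : ℕ} (c : Cfg n) (κ : ℕ) (p : St n) (x : Fin (3 ^ n)) : ℝ :=
  chi ((3 : ℝ) ^ (2 * n - κ)) (uv c p x)

/-- the mass of a state -/
noncomputable def NN {n : ℕ} (c : Cfg n) (κ : ℕ) (p : St n) : ℝ := ∑ x, wt c κ p x

/-- the exponential sum of frequency `ξ` over the centres in `Y` -/
noncomputable def VV {n : ℕ} (c : Cfg n) (κ : ℕ) (ξ : ZMod (3 ^ (2 * n))) (p : St n)
    (Y : Finset (Fin (3 ^ n))) : ℂ := ∑ x ∈ Y, (wt c κ p x : ℂ) * ch ξ (uv c p x)

/-- the state is heavy: its mass is at least `e^y 3^(n-κ)` -/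
def hv {n : ℕ} (c : Cfg n) (κ : ℕ) (y : ℝ) (p : St n) : Prop :=
  Real.exp y * 3 ^ (n - κ) ≤ NN c κ p

/-! ### flips -/

/-- the sign of the letter `i` -/
def sg {n : ℕ} (i : ℕ) (w : Word n) : ℤ := if h : i < n then sgn (w ⟨i, h⟩) else 0

/-- the word with the letter `i` flipped -/
def flp {n : ℕ} (i : ℕ) (w : Word n) : Word n := fun l => if (l : ℕ) = i then !(w l) else w l

/-- the flip of the letter `i`, compensated for the radius `ρ` -/
def Psi {n : ℕ} (i : ℕ) (ρ : ℤ) (p : St n) : St n :=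
  (p.1 + ((2 * sg i p.2 * ρ * 3 ^ (n - 1 - i) : ℤ) : ZMod (3 ^ (2 * n))), flp i p.2)

/-! ### the potential (a general finite set of points `x` with radii `R x` and weights `w x`) -/

/-- the index of the cell of level `a` of the grid for the radii, shifted by `sh` -/
def rc (n sh a z : ℕ) : ℕ := (z + sh) / 3 ^ (n - a)

/-- phases -/
noncomputable def ph (ζ : ℝ) (d r : ℕ) : ℂ :=
  Complex.exp (2 * Real.pi * Complex.I * (2 * ζ * r / 3 ^ d))

/-- the potential of the set `Y` for the list of levels `a :: b :: l`: the first level is the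
level of `Y`, the children of `Y` are its parts in the cells of level `b` -/
noncomputable def pot {X : Type} (n sh : ℕ) (ζ η : ℝ) (R : X → ℕ) (w : X → ℝ) :
    List ℕ → Finset X → ℝ
  | [], Y => ∑ x ∈ Y, w x
  | [_], Y => ∑ x ∈ Y, w x
  | a :: b :: l, Y =>
      max ((∑ r ∈ range (3 ^ (n + 1)), pot n sh ζ η R w (b :: l) {x ∈ Y | rc n sh b (R x) = r}
        + ‖∑ r ∈ range (3 ^ (n + 1)),
            ((pot n sh ζ η R w (b :: l) {x ∈ Y | rc n sh b (R x) = r} : ℝ) : ℂ)
              * ph ζ (b - a) r‖) / 2)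
        (η * ∑ x ∈ Y, w x)

/-- the potential of everything: the sum over the cells of the first level -/
noncomputable def rpot {X : Type} [Fintype X] (n sh : ℕ) (ζ η : ℝ) (R : X → ℕ) (w : X → ℝ)
    (L : List ℕ) : ℝ :=
  ∑ r ∈ range (3 ^ (n + 1)), pot n sh ζ η R w L {x | rc n sh (L.headD 0) (R x) = r}

/-- the cells of level `b` of two radii are far from each other, at the scale of the level `a` -/
def far (n sh a b z z' : ℕ) : Prop := (3 : ℤ) ^ (b - a) ≤ 81 * |(rc n sh b z : ℤ) - rc n sh b z'|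

/-- the proportion of far pairs in `Y` -/
noncomputable def nc {X : Type} (n sh : ℕ) (R : X → ℕ) (w : X → ℝ) (a b : ℕ) (Y : Finset X) : ℝ :=
  (∑ x ∈ Y, ∑ y ∈ Y, w x * w y * ind (far n sh a b (R x) (R y))) / (∑ x ∈ Y, w x) ^ 2

/-- the proportion of points of `Y` which are far from `x` -/
noncomputable def gf {X : Type} (n sh : ℕ) (R : X → ℕ) (w : X → ℝ) (a b : ℕ) (Y : Finset X)
    (x : X) : ℝ :=
  (∑ y ∈ Y, w y * ind (far n sh a b (R x) (R y))) / ∑ y ∈ Y, w y

/-- the sum of `nc` along the branch of `x` -/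
noncomputable def ncs {X : Type} (n sh : ℕ) (R : X → ℕ) (w : X → ℝ) : List ℕ → Finset X → X → ℝ
  | [], _, _ => 0
  | [_], _, _ => 0
  | a :: b :: l, Y, x =>
      nc n sh R w a b Y + ncs n sh R w (b :: l) {y ∈ Y | rc n sh b (R y) = rc n sh b (R x)} x

/-- the sum of `gf` along the branch of `x` -/
noncomputable def gfs {X : Type} (n sh : ℕ) (R : X → ℕ) (w : X → ℝ) : List ℕ → Finset X → X → ℝ
  | [], _, _ => 0
  | [_], _, _ => 0
  | a :: b :: l, Y, x =>
      gf n sh R w a b Y x + gfs n sh R w (b :: l) {y ∈ Y | rc n sh b (R y) = rc n sh b (R x)} x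

/-- `z` is not near the ends of its cell of level `i` -/
def good (n sh i z : ℕ) : Prop :=
  (z + sh) / 3 ^ (n - i - 2) % 9 ≠ 0 ∧ (z + sh) / 3 ^ (n - i - 2) % 9 ≠ 8

/-- the mass of the ball of radius `3^(n-j)` around the radius of `x` -/
noncomputable def mj {X : Type} [Fintype X] (n : ℕ) (R : X → ℕ) (w : X → ℝ) (j : ℕ) (x : X) : ℝ :=
  ∑ y, w y * ind (|(R y : ℤ) - R x| ≤ 3 ^ (n - j))

/-- the proportion of the ball `i + 2` outside the ball `i + 3` -/
noncomputable def om {X : Type} [Fintype X] (n : ℕ) (R : X → ℕ) (w : X → ℝ) (i : ℕ) (x : X) : ℝ :=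
  1 - mj n R w (i + 3) x / mj n R w (i + 2) x

/-! ### random patterns of levels -/

/-- the level picked in the block `t` -/
def pick (g : ℕ) {T : ℕ} (o : Fin (T + 1) → Fin (2 * g)) (t : ℕ) : ℕ :=
  2 * g * t + (if h : t < T + 1 then (o ⟨t, h⟩ : ℕ) else 0)

/-- the levels which are picked and which are not too close to the next one, and the last level -/
def pat (g κ : ℕ) {T : ℕ} (o : Fin (T + 1) → Fin (2 * g)) : List ℕ :=
  ((List.range T).filter (fun t => decide (pick g o t + g ≤ pick g o (t + 1)))).map (pick g o)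
    ++ [κ]

/-! ### error terms -/

/-- the error in the main proposition -/
noncomputable def et (n g : ℕ) (y U K : ℝ) : ℝ :=
  Real.exp (-(U / 60000)) + Real.exp (-(2 * U)) + 16 * n / K
    + Real.exp (4 * U - (y - Real.log K - 4 * g) / (40 * g * Real.log K))

/-- the error in the Fourier argument -/
noncomputable def kap (n A : ℕ) (J e : ℝ) : ℝ :=
  81 * (n : ℝ) ^ 3 / 9 ^ A + 2448 * (n : ℝ) ^ 2 / 3 ^ A + 144 * e * J + 18 * 9 ^ A / J

/-! ### the Fourier argument -/

/-- the difference of the masses of two neighbouring intervals of length `3^(2n-k-1)` -/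
noncomputable def DD {n : ℕ} (c : Cfg n) (κ k : ℕ) (p : St n) (v : ZMod (3 ^ (2 * n))) : ℝ :=
  ∑ x, wt c κ p x * (ind ((uv c p x - v).val < 3 ^ (2 * n - (k + 1)))
    - ind ((uv c p x - v - ((3 ^ (2 * n - (k + 1)) : ℕ) : ZMod (3 ^ (2 * n)))).val
        < 3 ^ (2 * n - (k + 1))))

/-- the multiplier of the difference of two neighbouring intervals of length `L` -/
noncomputable def mult {M : ℕ} [NeZero M] (L : ℕ) (ξ : ZMod M) : ℝ :=
  ‖∑ d ∈ range L, ch ξ (d : ZMod M)‖ ^ 2 * ‖1 - ch ξ (L : ZMod M)‖ ^ 2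

/-- the number of centres with `u` in the cell `m` of level `k` -/
noncomputable def ac {n : ℕ} (c : Cfg n) (k : ℕ) (p : St n) (m : ℕ) : ℝ :=
  ∑ x, ind (cell n k (uv c p x) = m)

/-- the configuration with all words -/
def full {n : ℕ} (c : Cfg n) : Cfg n where
  G := univ
  R := c.R
  lo := c.lo
  hi := c.hi
  ne := ⟨c.ne.choose, mem_univ _⟩

/-- the gauge `t exp (C (log log (1/t))^3)` -/
noncomputable def gau (C : ℝ) (d : ENNReal) : ENNReal :=
  ENNReal.ofReal (d.toReal * Real.exp (C * (Real.log (Real.log (1 / d.toReal))) ^ 3))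

/-- the threshold for the logarithmic density -/
noncomputable def Sm (n : ℕ) : ℝ := 2 * 10 ^ 13 * (Nat.clog 3 n : ℝ) ^ 3

end Pool.Agent.GA
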