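import Pool.Agent.helper4.GA.Spec

set_option autoImplicit false

open Finset
open Pool.Agent.helper32.Cant

namespace Pool.Agent.GA

/-- harmonic mean: if `∑ h ≤ P N θ` then `1/N ≤ θ/P ∑ 1/h` -/
theorem MPP_hm {ι : Type} (s : Finset ι) (h : ι → ℝ) {P N θ : ℝ} (hh : ∀ i ∈ s, 0 < h i)
    (hP : (s.card : ℝ) = P) (hP0 : 0 < P) (hN : 0 < N) (hθ : 0 < θ)
    (hs : ∑ i ∈ s, h i ≤ P * (N * θ)) : P / (N * θ) ≤ ∑ i ∈ s, 1 / h i := by
  have h1 : P ^ 2 ≤ (∑ i ∈ s, h i) * ∑ i ∈ s, 1 / h i := by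
    have h2 := Finset.sum_mul_sq_le_sq_mul_sq s (fun i => √(h i)) (fun i => 1 / √(h i))
    have h3 : ∑ i ∈ s, √(h i) * (1 / √(h i)) = P := by
      rw [← hP, Finset.sum_congr rfl (fun i hi => ?_), Finset.sum_const, nsmul_eq_mul, mul_one]
      have := Real.sqrt_pos.2 (hh i hi)
      field_simp
    have h4 : ∑ i ∈ s, √(h i) ^ 2 = ∑ i ∈ s, h i :=
      Finset.sum_congr rfl fun i hi => Real.sq_sqrt (hh i hi).le
    have h5 : ∑ i ∈ s, (1 / √(h i)) ^ 2 = ∑ i ∈ s, 1 / h i :=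
      Finset.sum_congr rfl fun i hi => by
        rw [div_pow, one_pow, Real.sq_sqrt (hh i hi).le]
    rw [h3, h4, h5] at h2
    exact h2
  have h0 : 0 ≤ ∑ i ∈ s, 1 / h i := Finset.sum_nonneg fun i hi => by
    have := hh i hi
    positivity
  rw [div_le_iff₀ (by positivity)]
  have h6 : P * P ≤ P * ((∑ i ∈ s, 1 / h i) * (N * θ)) := by
    calc P * P = P ^ 2 := by ring
      _ ≤ (∑ i ∈ s, h i) * ∑ i ∈ s, 1 / h i := h1
      _ ≤ P * (N * θ) * ∑ i ∈ s, 1 / h i := mul_le_mul_of_nonneg_right hs h0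
      _ = _ := by ring
  exact le_of_mul_le_mul_left h6 hP0

theorem MPP (hCHI : CHI_stmt) (hPOT : POT_stmt) (hONE : ONE_stmt) (hPT1 : PT1_stmt)
    (hTWO : TWO_stmt) : MPP_stmt := by
  intro n c κ g T x y U K hn hκn hg hgT hκT hK hx1 hx2 hx3
  have hwpos : ∀ (p : St n) (z : Fin (3 ^ n)), 0 < wt c κ p z := fun p z =>
    ((hCHI (3 ^ (2 * n)) ((3 : ℝ) ^ (2 * n - κ)) (by positivity)).1 _).1
  have hNpos : ∀ p, 0 < NN c κ p := fun p =>
    Finset.sum_pos (fun z _ => hwpos p z) ⟨⟨0, by positivity⟩, mem_univ _⟩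
  -- the scale of the frequency
  have h3κ : 0 < 3 ^ κ := by positivity
  have hx0 : 0 < x := by
    have : 0 < 3 * n * 3 ^ κ := by positivity
    omega
  set B := Nat.log 3 (8 * x) with hB
  have hB1 : 3 ^ B ≤ 8 * x := Nat.pow_log_le_self 3 (by omega)
  have hB2 : 8 * x < 3 ^ (B + 1) := Nat.lt_pow_succ_log_self (by norm_num) _
  have hBn : B ≤ n := by
    by_contra hcon
    have h1 : 3 ^ (n + 1) ≤ 3 ^ B := Nat.pow_le_pow_right (by norm_num) (by omega)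
    have h2 : 3 ^ (n + 1) = 3 * 3 ^ n := by rw [pow_succ]; ring
    have h3 : 0 < 3 ^ n := by positivity
    omega
  have hκB : κ < B := by
    by_contra hcon
    have h1 : 3 ^ (B + 1) ≤ 3 ^ (κ + 1) := Nat.pow_le_pow_right (by norm_num) (by omega)
    have h2 : 3 ^ (κ + 1) = 3 * 3 ^ κ := by rw [pow_succ]; ring
    have h3 : 3 * 3 ^ κ ≤ 3 * n * 3 ^ κ := by nlinarith
    omega
  set ζ : ℝ := (x : ℝ) / 3 ^ B with hζ
  have h3B : (0 : ℝ) < 3 ^ B := by positivity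
  have hxζ : (x : ℝ) = ζ * 3 ^ B := by rw [hζ]; field_simp
  have hB1r : (3 : ℝ) ^ B ≤ 8 * x := by exact_mod_cast hB1
  have hB2r : 8 * (x : ℝ) < 3 * 3 ^ B := by
    have : (8 : ℝ) * x < 3 ^ (B + 1) := by exact_mod_cast hB2
    rw [pow_succ] at this; linarith
  have hζ1 : 1 / 8 ≤ ζ := by rw [hζ, le_div_iff₀ h3B]; linarith
  have hζ2 : ζ ≤ 3 / 8 := by rw [hζ, div_le_iff₀ h3B]; linarith
  have hnr : (1 : ℝ) ≤ n := by exact_mod_cast hn
  have hxr : (0 : ℝ) < x := by exact_mod_cast hx0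
  have hx1r : 3 * (n : ℝ) * 3 ^ κ ≤ x := by exact_mod_cast hx1
  have h3κr : (0 : ℝ) < 3 ^ κ := by positivity
  -- `t = 3^κ / x`
  set t : ℝ := 3 ^ κ / x with ht
  have ht0 : 0 < t := by positivity
  have ht1 : 3 * (n : ℝ) * t ≤ 1 := by
    rw [ht, mul_div_assoc', div_le_one hxr]; exact hx1r
  have ht2 : (3 : ℝ) ^ κ / 3 ^ B ≤ 3 / 8 * t := by
    rw [ht, mul_div_assoc', div_le_div_iff₀ h3B hxr]
    nlinarith
  have ht3 : (5 : ℝ) / 3 ^ g ≤ 5 / 9 * t := by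
    rw [ht, mul_div_assoc', div_le_div_iff₀ (by positivity) hxr]
    have : (9 : ℝ) * x ≤ 3 ^ (g + κ) := by exact_mod_cast hx2
    rw [pow_add] at this
    nlinarith
  set η : ℝ := 8 * (n : ℝ) ^ 2 * 9 ^ κ / (x : ℝ) ^ 2 with hη
  have hηt : η = 8 * (n : ℝ) ^ 2 * t ^ 2 := by
    rw [hη, ht, div_pow, ← pow_mul, mul_comm κ 2, pow_mul]
    norm_num
    ring
  have hη0 : 0 < η := by rw [hηt]; positivity
  have hη1 : η ≤ 1 := by
    rw [hηt]
    have : (n : ℝ) * t ≤ 1 / 3 := by linarith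
    have h2 : 0 ≤ (n : ℝ) * t := by positivity
    nlinarith
  have hε : 2 * (n : ℝ) ^ 2 * (3 * 3 ^ κ / 3 ^ B + 5 / 3 ^ g) ^ 2 ≤ η := by
    have h1 : (3 : ℝ) * 3 ^ κ / 3 ^ B + 5 / 3 ^ g ≤ 2 * t := by
      rw [mul_div_assoc]; linarith
    have h2 : 0 ≤ (3 : ℝ) * 3 ^ κ / 3 ^ B + 5 / 3 ^ g := by positivity
    calc 2 * (n : ℝ) ^ 2 * (3 * 3 ^ κ / 3 ^ B + 5 / 3 ^ g) ^ 2
        ≤ 2 * (n : ℝ) ^ 2 * (2 * t) ^ 2 := by gcongr
      _ = η := by rw [hηt]; ring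
  have hε3 : (2 : ℝ) * 3 ^ κ / 3 ^ B ≤ 1 / n := by
    rw [le_div_iff₀ (by linarith), mul_div_assoc]
    nlinarith
  -- et ≥ 0
  have het : 0 < η + et n g y U K := by
    have : 0 ≤ et n g y U K := by unfold et; positivity
    linarith
  -- the pairs
  set θ : ℝ := η + et n g y U K with hθ
  set I : Finset ((Fin (T + 1) → Fin (2 * g)) × ℕ) := univ ×ˢ range (3 ^ n) with hI
  set P : ℝ := (2 * g : ℝ) ^ (T + 1) * 3 ^ n with hP
  have hIP : (I.card : ℝ) = P := by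
    rw [hI, Finset.card_product, Finset.card_univ, Fintype.card_fun, Fintype.card_fin,
      Fintype.card_fin, Finset.card_range, hP]
    push_cast; ring
  have hP0 : 0 < P := by
    have : (4 : ℝ) ≤ g := by exact_mod_cast hg
    positivity
  set h : St n → ((Fin (T + 1) → Fin (2 * g)) × ℕ) → ℝ := fun p i =>
    rpot n i.2 ζ η c.R (wt c κ p) (pat g κ i.1) with hh
  -- positivity of `rpot`
  have hpos : ∀ p, ∀ i ∈ I, 0 < h p i := by
    intro p i hi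
    have hsh : i.2 < 3 ^ n := by
      rw [hI, Finset.mem_product] at hi
      exact Finset.mem_range.1 hi.2
    simp only [hh, rpot]
    have h1 : ∑ r ∈ range (3 ^ (n + 1)), η * ∑ z ∈ (univ : Finset (Fin (3 ^ n))) with
        rc n i.2 ((pat g κ i.1).headD 0) (c.R z) = r, wt c κ p z = η * NN c κ p := by
      rw [← Finset.mul_sum, Finset.sum_fiberwise_of_maps_to]
      · rfl
      intro z _
      rw [Finset.mem_range]
      unfold rc
      have h1 : c.R z + i.2 < 3 ^ (n + 1) := by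
        have := c.hi z
        rw [pow_succ]; omega
      exact lt_of_le_of_lt (Nat.div_le_self _ _) h1
    have h2 : 0 < η * NN c κ p := mul_pos hη0 (hNpos p)
    rw [← h1] at h2
    refine lt_of_lt_of_le h2 (Finset.sum_le_sum fun r _ => ?_)
    exact (hPOT _ n i.2 ζ η c.R hη0.le hη1 (pat g κ i.1) _ (wt c κ p)
      (fun z _ => (hwpos p z).le)).1
  -- ONE
  have hone : ∀ i ∈ I, ∑ p, ‖VV c κ (x : ZMod (3 ^ (2 * n))) p univ‖ ^ 2 / h p i ≤
      18 * ∑ p, NN c κ p := by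
    intro i hi
    have hsh : i.2 < 3 ^ n := by
      rw [hI, Finset.mem_product] at hi
      exact Finset.mem_range.1 hi.2
    obtain ⟨q1, q2, q3, q4, -, -⟩ := hPT1 g κ T i.1 (by omega) hgT
    refine hONE n c κ B g i.2 x ζ η (pat g κ i.1) hn hκB hBn hsh hxζ hζ1 hζ2 hη0 hη1 hε3 hε
      q1 q2 q3 (q4.trans ?_)
    have : T ≤ 2 * g * T := by nlinarith
    omega
  have hsum : ∑ p, ‖VV c κ (x : ZMod (3 ^ (2 * n))) p univ‖ ^ 2 * ∑ i ∈ I, 1 / h p i ≤
      P * (18 * ∑ p, NN c κ p) := by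
    calc ∑ p, ‖VV c κ (x : ZMod (3 ^ (2 * n))) p univ‖ ^ 2 * ∑ i ∈ I, 1 / h p i
        = ∑ i ∈ I, ∑ p, ‖VV c κ (x : ZMod (3 ^ (2 * n))) p univ‖ ^ 2 / h p i := by
          rw [Finset.sum_comm]
          refine Finset.sum_congr rfl fun p _ => ?_
          rw [Finset.mul_sum]
          refine Finset.sum_congr rfl fun i _ => ?_
          ring
      _ ≤ ∑ i ∈ I, 18 * ∑ p, NN c κ p := Finset.sum_le_sum hone
      _ = _ := by rw [Finset.sum_const, nsmul_eq_mul, hIP]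
  have hkey : ∀ p, ind (hv c κ y p) * (‖VV c κ (x : ZMod (3 ^ (2 * n))) p univ‖ ^ 2 / NN c κ p)
      ≤ θ / P * (‖VV c κ (x : ZMod (3 ^ (2 * n))) p univ‖ ^ 2 * ∑ i ∈ I, 1 / h p i) := by
    intro p
    have h0 : 0 ≤ ∑ i ∈ I, 1 / h p i := Finset.sum_nonneg fun i hi => by
      have := hpos p i hi
      positivity
    by_cases hp : hv c κ y p
    · have e1 : ind (hv c κ y p) = 1 := by unfold ind; simp [hp]
      rw [e1, one_mul]
      have htwo := hTWO n c κ g T ζ η y U K p hκn hg hgT hκT hK hζ1 hζ2 hη0 hη1 hp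
      have h1 : ∑ i ∈ I, h p i ≤ P * (NN c κ p * θ) := by
        rw [hI, Finset.sum_product]
        exact htwo
      have h2 := MPP_hm I (h p) (hpos p) hIP hP0 (hNpos p) het h1
      have h3 : 1 / NN c κ p ≤ θ / P * ∑ i ∈ I, 1 / h p i := by
        have h4 := mul_le_mul_of_nonneg_left h2 (show 0 ≤ θ / P by positivity)
        refine le_trans (le_of_eq ?_) h4
        have := hNpos p
        field_simp
      calc ‖VV c κ (x : ZMod (3 ^ (2 * n))) p univ‖ ^ 2 / NN c κ p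
          = ‖VV c κ (x : ZMod (3 ^ (2 * n))) p univ‖ ^ 2 * (1 / NN c κ p) := by ring
        _ ≤ ‖VV c κ (x : ZMod (3 ^ (2 * n))) p univ‖ ^ 2 * (θ / P * ∑ i ∈ I, 1 / h p i) :=
            mul_le_mul_of_nonneg_left h3 (by positivity)
        _ = _ := by ring
    · have e1 : ind (hv c κ y p) = 0 := by unfold ind; simp [hp]
      rw [e1, zero_mul]
      positivity
  calc ∑ p, ind (hv c κ y p) * (‖VV c κ (x : ZMod (3 ^ (2 * n))) p univ‖ ^ 2 / NN c κ p)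
      ≤ ∑ p, θ / P * (‖VV c κ (x : ZMod (3 ^ (2 * n))) p univ‖ ^ 2 * ∑ i ∈ I, 1 / h p i) :=
        Finset.sum_le_sum fun p _ => hkey p
    _ = θ / P * ∑ p, ‖VV c κ (x : ZMod (3 ^ (2 * n))) p univ‖ ^ 2 * ∑ i ∈ I, 1 / h p i := by
        rw [← Finset.mul_sum]
    _ ≤ θ / P * (P * (18 * ∑ p, NN c κ p)) :=
        mul_le_mul_of_nonneg_left hsum (by positivity)
    _ = 18 * θ * ∑ p, NN c κ p := by field_simp

end Pool.Agent.GA
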