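import Pool.Agent.helper4.GA.Spec

set_option autoImplicit false

open Finset
open Pool.Agent.helper32.Cant

namespace Pool.Agent.GA

theorem ON1_norm (hCHI : CHI_stmt) {n : ℕ} (c : Cfg n) (κ : ℕ) (ξ : ZMod (3 ^ (2 * n))) (p : St n)
    (Y : Finset (Fin (3 ^ n))) : ‖VV c κ ξ p Y‖ ≤ ∑ y ∈ Y, wt c κ p y := by
  unfold VV
  refine (norm_sum_le _ _).trans (Finset.sum_le_sum fun y _ => ?_)
  have hpos : 0 < wt c κ p y :=
    ((hCHI (3 ^ (2 * n)) ((3 : ℝ) ^ (2 * n - κ)) (by positivity)).1 _).1
  rw [norm_mul, Complex.norm_real, Real.norm_of_nonneg hpos.le]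
  have h1 : ‖ch ξ (uv c p y)‖ = 1 := by
    unfold ch
    exact AddChar.norm_apply _ _
  rw [h1, mul_one]

theorem ON1 (hCHI : CHI_stmt) (hSTP : STP_stmt) : ON1_stmt := by
  intro n c κ B g sh x ζ η δ Q E₀ hκB hBn hsh hx hζ1 hζ2 hη hη1 hδ hQ hE
  have hwpos : ∀ (p : St n) (y : Fin (3 ^ n)), 0 < wt c κ p y := fun p y =>
    ((hCHI (3 ^ (2 * n)) ((3 : ℝ) ^ (2 * n - κ)) (by positivity)).1 _).1
  have hQ1 : 1 ≤ Q := by
    have : 1 ≤ Real.exp (2 * 3 ^ κ / 3 ^ B) := Real.one_le_exp (by positivity)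
    rw [hQ]; nlinarith
  have hE0 : 0 ≤ E₀ := by rw [hE]; positivity
  intro l
  induction l with
  | nil =>
    intro a r Y _ _ _
    simp only [List.length_nil, pow_zero, Nat.cast_zero, zero_mul, add_zero, one_mul]
    refine Finset.sum_le_sum fun p _ => ?_
    have h1 := ON1_norm hCHI c κ (x : ZMod (3 ^ (2 * n))) p Y
    have h2 : 0 ≤ ∑ y ∈ Y, wt c κ p y := Finset.sum_nonneg fun y _ => (hwpos p y).le
    have h3 : pot n sh ζ η c.R (wt c κ p) [a] Y = ∑ y ∈ Y, wt c κ p y := by simp [pot]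
    rw [h3]
    rcases h2.eq_or_lt with h0 | h0
    · rw [← h0]; simp
    · rw [div_le_iff₀ h0, ← sq]
      exact pow_le_pow_left₀ (norm_nonneg _) h1 2
  | cons b l ih =>
    intro a r Y hch hle hY
    have hab : a + g ≤ b := by
      rw [List.isChain_cons_cons] at hch
      exact hch.1
    have hch' : List.IsChain (fun i j => i + g ≤ j) (b :: l) := by
      rw [List.isChain_cons_cons] at hch
      exact hch.2
    have haκ : a ≤ κ := hle a (by simp)
    have hbκ : b ≤ κ := hle b (by simp)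
    have hstp := hSTP n c κ B a b g sh x r l ζ η δ Y hκB hBn haκ hab (by omega) hsh hx hζ1 hζ2
      hη hη1 hδ hY
    rw [← hQ, ← hE] at hstp
    refine hstp.trans ?_
    set N : ℝ := ∑ p, ∑ y ∈ Y, wt c κ p y with hN
    have hN0 : 0 ≤ N := Finset.sum_nonneg fun p _ => Finset.sum_nonneg fun y _ => (hwpos p y).le
    have hchild : ∑ r' ∈ range (3 ^ (n + 1)), ∑ p,
        ‖VV c κ (x : ZMod (3 ^ (2 * n))) p {y ∈ Y | rc n sh b (c.R y) = r'}‖ ^ 2
          / pot n sh ζ η c.R (wt c κ p) (b :: l) {y ∈ Y | rc n sh b (c.R y) = r'} ≤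
        Q ^ l.length * (1 + l.length * E₀) * N := by
      calc _ ≤ ∑ r' ∈ range (3 ^ (n + 1)), Q ^ l.length * (1 + l.length * E₀) *
            ∑ p, ∑ y ∈ Y with rc n sh b (c.R y) = r', wt c κ p y := by
            refine Finset.sum_le_sum fun r' _ => ?_
            exact ih b r' _ hch' (fun i hi => hle i (by simp at hi ⊢; tauto)) (fun y hy => by
              simpa using (Finset.mem_filter.1 hy).2)
        _ = Q ^ l.length * (1 + l.length * E₀) *
            ∑ p, ∑ r' ∈ range (3 ^ (n + 1)), ∑ y ∈ Y with rc n sh b (c.R y) = r', wt c κ p y := by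
            rw [← Finset.mul_sum, Finset.sum_comm]
        _ ≤ _ := by
            refine mul_le_mul_of_nonneg_left (Finset.sum_le_sum fun p _ => ?_) (by positivity)
            rw [Finset.sum_fiberwise_of_maps_to]
            intro y _
            rw [Finset.mem_range]
            unfold rc
            have h1 : c.R y + sh < 3 ^ (n + 1) := by
              have := c.hi y
              rw [pow_succ]; omega
            exact lt_of_le_of_lt (Nat.div_le_self _ _) h1
    have hQl : 1 ≤ Q ^ (l.length + 1) := one_le_pow₀ hQ1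
    simp only [List.length_cons, Nat.cast_add, Nat.cast_one]
    calc _ ≤ Q * (Q ^ l.length * (1 + l.length * E₀) * N) + E₀ * N := by
          have := mul_le_mul_of_nonneg_left hchild (by linarith : (0 : ℝ) ≤ Q)
          linarith
      _ = Q ^ (l.length + 1) * (1 + l.length * E₀) * N + 1 * (E₀ * N) := by ring
      _ ≤ Q ^ (l.length + 1) * (1 + l.length * E₀) * N + Q ^ (l.length + 1) * (E₀ * N) := by
          have : 0 ≤ E₀ * N := by positivity
          have := mul_le_mul_of_nonneg_right hQl this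
          linarith
      _ = _ := by ring

end Pool.Agent.GA
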