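import Pool.Agent.helper4.GA.Spec

set_option autoImplicit false

open Finset
open Pool.Agent.helper32.Cant

namespace Pool.Agent.GA

/-- Cauchy-Schwarz for a sum of complex numbers with weights -/
theorem ONE_cs (s : Finset ℕ) (v : ℕ → ℂ) (h : ℕ → ℝ) (hh : ∀ r ∈ s, 0 ≤ h r)
    (hv : ∀ r ∈ s, h r = 0 → v r = 0) :
    ‖∑ r ∈ s, v r‖ ^ 2 ≤ (∑ r ∈ s, h r) * ∑ r ∈ s, ‖v r‖ ^ 2 / h r := by
  have h1 := Finset.sum_mul_sq_le_sq_mul_sq s (fun r => √(h r)) (fun r => ‖v r‖ / √(h r))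
  have h3 : ∑ r ∈ s, √(h r) * (‖v r‖ / √(h r)) = ∑ r ∈ s, ‖v r‖ := by
    refine Finset.sum_congr rfl fun r hr => ?_
    rcases (hh r hr).eq_or_lt with h0 | h0
    · rw [hv r hr h0.symm]; simp
    · have := Real.sqrt_pos.2 h0
      field_simp
  have h4 : ∑ r ∈ s, √(h r) ^ 2 = ∑ r ∈ s, h r :=
    Finset.sum_congr rfl fun i hi => Real.sq_sqrt (hh i hi)
  have h5 : ∑ r ∈ s, (‖v r‖ / √(h r)) ^ 2 = ∑ r ∈ s, ‖v r‖ ^ 2 / h r :=
    Finset.sum_congr rfl fun i hi => by rw [div_pow, Real.sq_sqrt (hh i hi)]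
  rw [h3, h4, h5] at h1
  refine le_trans (pow_le_pow_left₀ (norm_nonneg _) (norm_sum_le _ _) 2) h1

theorem ONE_num {n : ℕ} (hn : 1 ≤ n) {ε3 ε η : ℝ} (hε30 : 0 ≤ ε3) (hε3 : ε3 ≤ 1 / n)
    (hη : 0 < η) (hε : 2 * (n : ℝ) ^ 2 * ε ^ 2 ≤ η) {l : ℕ} (hl : l ≤ n) :
    ((1 + 1 / (n : ℝ)) * Real.exp ε3) ^ l * (1 + l * ((1 + 1 / (1 / (n : ℝ))) * Real.exp ε3 * ε ^ 2
      / (2 * η))) ≤ 18 := by
  have hnr : (1 : ℝ) ≤ n := by exact_mod_cast hn
  have hn0 : (0 : ℝ) < n := by linarith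
  have he : Real.exp 1 < 2.7182818286 := Real.exp_one_lt_d9
  have he0 : 0 < Real.exp 1 := Real.exp_pos 1
  have hQ : ((1 + 1 / (n : ℝ)) * Real.exp ε3) ^ l ≤ Real.exp 1 * Real.exp 1 := by
    have h1 : 1 + 1 / (n : ℝ) ≤ Real.exp (1 / n) := by
      have := Real.add_one_le_exp (1 / (n : ℝ)); linarith
    have h2 : Real.exp ε3 ≤ Real.exp (1 / n) := Real.exp_le_exp.2 hε3
    have h3 : (1 + 1 / (n : ℝ)) * Real.exp ε3 ≤ Real.exp (1 / n) * Real.exp (1 / n) := by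
      apply mul_le_mul h1 h2 (Real.exp_pos _).le (Real.exp_pos _).le
    have h4 : 1 ≤ Real.exp (1 / (n : ℝ)) * Real.exp (1 / n) := by
      have : 1 ≤ Real.exp (1 / (n : ℝ)) := Real.one_le_exp (by positivity)
      nlinarith
    calc ((1 + 1 / (n : ℝ)) * Real.exp ε3) ^ l ≤ (Real.exp (1 / n) * Real.exp (1 / n)) ^ l :=
          pow_le_pow_left₀ (by positivity) h3 l
      _ ≤ (Real.exp (1 / n) * Real.exp (1 / n)) ^ n := pow_le_pow_right₀ h4 hl
      _ = Real.exp 1 * Real.exp 1 := by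
          rw [mul_pow, ← Real.exp_nat_mul]
          congr 2 <;> field_simp
  have hE : (l : ℝ) * ((1 + 1 / (1 / (n : ℝ))) * Real.exp ε3 * ε ^ 2 / (2 * η)) ≤
      Real.exp 1 / 2 := by
    have h1 : (l : ℝ) ≤ n := by exact_mod_cast hl
    have h2 : Real.exp ε3 ≤ Real.exp 1 := Real.exp_le_exp.2 (hε3.trans (by
      rw [div_le_one hn0]; exact hnr))
    have h3 : ε ^ 2 / (2 * η) ≤ 1 / (4 * n ^ 2) := by
      rw [div_le_div_iff₀ (by positivity) (by positivity)]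
      nlinarith
    have h5 : 1 + 1 / (1 / (n : ℝ)) ≤ 2 * n := by rw [one_div_one_div]; linarith
    calc (l : ℝ) * ((1 + 1 / (1 / (n : ℝ))) * Real.exp ε3 * ε ^ 2 / (2 * η))
        = l * ((1 + 1 / (1 / (n : ℝ))) * Real.exp ε3 * (ε ^ 2 / (2 * η))) := by ring
      _ ≤ n * ((2 * n) * Real.exp 1 * (1 / (4 * n ^ 2))) := by gcongr
      _ = Real.exp 1 / 2 := by field_simp; ring
  have hE0 : 0 ≤ (l : ℝ) * ((1 + 1 / (1 / (n : ℝ))) * Real.exp ε3 * ε ^ 2 / (2 * η)) := by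
    positivity
  calc _ ≤ (Real.exp 1 * Real.exp 1) * (1 + Real.exp 1 / 2) := by
        apply mul_le_mul hQ (by linarith) (by linarith) (by positivity)
    _ ≤ (2.7182818286 * 2.7182818286) * (1 + 2.7182818286 / 2) := by gcongr
    _ ≤ 18 := by norm_num

theorem ONE (hCHI : CHI_stmt) (hPOT : POT_stmt) (hON1 : ON1_stmt) : ONE_stmt := by
  intro n c κ B g sh x ζ η L hn hκB hBn hsh hx hζ1 hζ2 hη hη1 hε3 hε hL hch hle hlen
  have hwpos : ∀ (p : St n) (z : Fin (3 ^ n)), 0 < wt c κ p z := fun p z =>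
    ((hCHI (3 ^ (2 * n)) ((3 : ℝ) ^ (2 * n - κ)) (by positivity)).1 _).1
  have hnr : (1 : ℝ) ≤ n := by exact_mod_cast hn
  obtain ⟨a, l, rfl⟩ := List.exists_cons_of_ne_nil hL
  set ξ : ZMod (3 ^ (2 * n)) := (x : ZMod (3 ^ (2 * n))) with hξ
  set Yr : ℕ → Finset (Fin (3 ^ n)) := fun r => {z | rc n sh a (c.R z) = r} with hYr
  have hrange : ∀ z : Fin (3 ^ n), rc n sh a (c.R z) ∈ range (3 ^ (n + 1)) := by
    intro z
    rw [Finset.mem_range]
    unfold rc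
    have h1 : c.R z + sh < 3 ^ (n + 1) := by
      have := c.hi z
      rw [pow_succ]; omega
    exact lt_of_le_of_lt (Nat.div_le_self _ _) h1
  set H : St n → ℕ → ℝ := fun p r => pot n sh ζ η c.R (wt c κ p) (a :: l) (Yr r) with hH
  have hHprop : ∀ p r, η * ∑ z ∈ Yr r, wt c κ p z ≤ H p r := fun p r =>
    (hPOT _ n sh ζ η c.R hη.le hη1 (a :: l) (Yr r) (wt c κ p) (fun z _ => (hwpos p z).le)).1
  have hH0 : ∀ p r, 0 ≤ H p r := fun p r => by
    have h2 : 0 ≤ ∑ y ∈ Yr r, wt c κ p y := Finset.sum_nonneg fun y _ => (hwpos p y).le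
    have : 0 ≤ η * ∑ y ∈ Yr r, wt c κ p y := by positivity
    exact this.trans (hHprop p r)
  have hHV : ∀ p r, H p r = 0 → VV c κ ξ p (Yr r) = 0 := by
    intro p r h0
    have h2 : Yr r = ∅ := by
      by_contra hne
      have h3 : 0 < ∑ y ∈ Yr r, wt c κ p y :=
        Finset.sum_pos (fun y _ => hwpos p y) (Finset.nonempty_iff_ne_empty.2 hne)
      have h4 : 0 < η * ∑ y ∈ Yr r, wt c κ p y := by positivity
      have h5 := hHprop p r
      rw [h0] at h5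
      linarith
    simp [VV, h2]
  have hsumV : ∀ p, ∑ r ∈ range (3 ^ (n + 1)), VV c κ ξ p (Yr r) = VV c κ ξ p univ := by
    intro p
    simp only [VV, hYr]
    rw [Finset.sum_fiberwise_of_maps_to (fun z _ => hrange z)]
  have hsumN : ∀ p, ∑ r ∈ range (3 ^ (n + 1)), ∑ z ∈ Yr r, wt c κ p z = NN c κ p := by
    intro p
    simp only [hYr]
    rw [Finset.sum_fiberwise_of_maps_to (fun z _ => hrange z)]
    rfl
  have hrp : ∀ p, rpot n sh ζ η c.R (wt c κ p) (a :: l) = ∑ r ∈ range (3 ^ (n + 1)), H p r := by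
    intro p; rfl
  have hrp0 : ∀ p, 0 < rpot n sh ζ η c.R (wt c κ p) (a :: l) := by
    intro p
    rw [hrp]
    have h1 : 0 < NN c κ p := Finset.sum_pos (fun z _ => hwpos p z) ⟨⟨0, by positivity⟩, mem_univ _⟩
    have h2 : 0 < η * NN c κ p := by positivity
    refine lt_of_lt_of_le h2 ?_
    rw [← hsumN p, Finset.mul_sum]
    exact Finset.sum_le_sum fun r _ => hHprop p r
  have hmain : ∑ p, ‖VV c κ ξ p univ‖ ^ 2 / rpot n sh ζ η c.R (wt c κ p) (a :: l) ≤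
      ∑ r ∈ range (3 ^ (n + 1)), ∑ p, ‖VV c κ ξ p (Yr r)‖ ^ 2 / H p r := by
    rw [Finset.sum_comm]
    refine Finset.sum_le_sum fun p _ => ?_
    rw [div_le_iff₀ (hrp0 p), hrp p, ← hsumV p, mul_comm]
    exact ONE_cs _ _ _ (fun r _ => hH0 p r) (fun r _ h => hHV p r h)
  refine hmain.trans ?_
  set ε3 : ℝ := 2 * 3 ^ κ / 3 ^ B with hε3def
  set ε : ℝ := 3 * 3 ^ κ / 3 ^ B + 5 / 3 ^ g with hεdef
  have hon := hON1 n c κ B g sh x ζ η (1 / n) _ _ hκB hBn hsh hx hζ1 hζ2 hη hη1 (by positivity)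
    rfl rfl l a
  have hnum := ONE_num hn (ε3 := ε3) (by positivity) hε3 hη hε (l := l.length) (by
    simp only [List.length_cons] at hlen
    omega)
  calc ∑ r ∈ range (3 ^ (n + 1)), ∑ p, ‖VV c κ ξ p (Yr r)‖ ^ 2 / H p r
      ≤ ∑ r ∈ range (3 ^ (n + 1)), 18 * ∑ p, ∑ z ∈ Yr r, wt c κ p z := by
        refine Finset.sum_le_sum fun r _ => ?_
        refine (hon r (Yr r) hch hle (fun y hy => by simpa [hYr] using hy)).trans ?_
        refine mul_le_mul_of_nonneg_right hnum ?_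
        exact Finset.sum_nonneg fun p _ => Finset.sum_nonneg fun y _ => (hwpos p y).le
    _ = 18 * ∑ p, NN c κ p := by
        rw [← Finset.mul_sum, Finset.sum_comm]
        congr 1
        exact Finset.sum_congr rfl fun p _ => hsumN p

end Pool.Agent.GA
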