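import Pool.Agent.helper4.GA.Spec

set_option autoImplicit false

open Finset
open Pool.Agent.helper32.Cant

namespace Pool.Agent.GA

theorem ST1_exp {y : ℝ} (h0 : 0 ≤ y) (h1 : y ≤ 2 / 3) : Real.exp y - 1 ≤ 3 / 2 * y := by
  have h := Real.exp_bound' h0 (by linarith : y ≤ 1) (n := 3) (by norm_num)
  simp only [Finset.sum_range_succ, Finset.sum_range_zero, Nat.factorial] at h
  norm_num at h
  have h2 : y ^ 2 ≤ 2 / 3 * y := by nlinarith
  have h3 : y ^ 3 ≤ 4 / 9 * y := by nlinarith [mul_nonneg h0 h0]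
  nlinarith

/-- `|e^(iφ) - 1| ≤ |φ|` -/
theorem ST1_phase (φ : ℝ) : ‖Complex.exp (φ * Complex.I) - 1‖ ≤ |φ| := by
  have := Real.norm_exp_I_mul_ofReal_sub_one_le (x := φ)
  rw [mul_comm]
  simpa using this

theorem ST1_fib {n : ℕ} (c : Cfg n) (κ b sh : ℕ) (ξ : ZMod (3 ^ (2 * n))) (p : St n)
    (Y : Finset (Fin (3 ^ n))) (e : ℕ → ℂ) (hsh : sh < 3 ^ n) :
    ∑ r' ∈ range (3 ^ (n + 1)), VV c κ ξ p {y ∈ Y | rc n sh b (c.R y) = r'} * e r' =
      ∑ y ∈ Y, (wt c κ p y : ℂ) * ch ξ (uv c p y) * e (rc n sh b (c.R y)) := by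
  rw [← Finset.sum_fiberwise_of_maps_to (s := Y) (t := range (3 ^ (n + 1)))
    (g := fun y => rc n sh b (c.R y))]
  · refine Finset.sum_congr rfl fun r' _ => ?_
    unfold VV
    rw [Finset.sum_mul]
    refine Finset.sum_congr rfl fun y hy => ?_
    rw [(Finset.mem_filter.1 hy).2]
  · intro y _
    rw [Finset.mem_range]
    unfold rc
    have h1 : c.R y + sh < 3 ^ (n + 1) := by
      have := c.hi y
      rw [pow_succ]; omega
    exact lt_of_le_of_lt (Nat.div_le_self _ _) h1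

theorem ST1 (hCHR : CHR_stmt) (hCHI : CHI_stmt) (hFLP : FLP_stmt) : ST1_stmt := by
  intro n c κ B a b g sh x r ζ Y p hκB hBn haκ hab hbn hsh hx hζ1 hζ2 hY
  set i := B - 1 - a with hi
  set ρ : ℤ := (r : ℤ) * 3 ^ (n - a) - sh with hρ
  have hin : i < n := by omega
  obtain ⟨-, hsg, hu, -⟩ := hFLP n c i ρ hin
  set ℓ : ℝ := (3 : ℝ) ^ (2 * n - κ) with hℓ
  have hℓ0 : 0 < ℓ := by positivity
  obtain ⟨hchi1, hchi2, -⟩ := hCHI (3 ^ (2 * n)) ℓ hℓ0
  obtain ⟨hch1, hch2, hch3, -⟩ := hCHR (3 ^ (2 * n))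
  set d : Fin (3 ^ n) → ℤ := fun y => -(2 * sg i p.2 * ((c.R y : ℤ) - ρ) * 3 ^ (n - 1 - i)) with hd
  have hn1i : n - 1 - i = n - B + a := by omega
  -- the size of `R - ρ`
  have hD : ∀ y ∈ Y, 0 ≤ (c.R y : ℤ) - ρ ∧ (c.R y : ℤ) - ρ < 3 ^ (n - a) := by
    intro y hy
    have h1 := hY y hy
    unfold rc at h1
    have h3 : 0 < 3 ^ (n - a) := by positivity
    have h2 := Nat.div_add_mod (c.R y + sh) (3 ^ (n - a))
    have h4 := Nat.mod_lt (c.R y + sh) h3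
    rw [h1] at h2
    have h5 : ((c.R y : ℤ) + sh) = 3 ^ (n - a) * r + ((c.R y + sh) % 3 ^ (n - a) : ℕ) := by
      exact_mod_cast h2.symm
    have h6 : (((c.R y + sh) % 3 ^ (n - a) : ℕ) : ℤ) < 3 ^ (n - a) := by exact_mod_cast h4
    have h7 : 0 ≤ (((c.R y + sh) % 3 ^ (n - a) : ℕ) : ℤ) := by positivity
    have h8 : (c.R y : ℤ) - ρ = (((c.R y + sh) % 3 ^ (n - a) : ℕ) : ℤ) := by
      rw [hρ]; linarith
    rw [h8]
    exact ⟨h7, h6⟩
  have hsg' : |((sg i p.2 : ℤ) : ℝ)| = 1 := by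
    rcases hsg p with h | h <;> rw [h] <;> norm_num
  have hpB : (3 : ℝ) ^ (n - a) * 3 ^ (n - B + a) * 3 ^ B = 3 ^ (2 * n) := by
    rw [← pow_add, ← pow_add]; congr 1; omega
  have hpκ : ℓ * 3 ^ κ = 3 ^ (2 * n) := by
    rw [hℓ, ← pow_add]; congr 1; omega
  have h3B : (0 : ℝ) < 3 ^ B := by positivity
  have h3κ : (0 : ℝ) < 3 ^ κ := by positivity
  have hdabs : ∀ y ∈ Y, |(d y : ℝ)| / ℓ ≤ 2 * 3 ^ κ / 3 ^ B := by
    intro y hy
    obtain ⟨hD1, hD2⟩ := hD y hy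
    have h1 : |(d y : ℝ)| = 2 * (((c.R y : ℤ) - ρ : ℤ) : ℝ) * 3 ^ (n - B + a) := by
      simp only [hd, hn1i]
      push_cast
      rw [abs_neg, abs_mul, abs_mul, abs_mul, hsg']
      have h2 : (0 : ℝ) ≤ ((c.R y : ℝ) - (ρ : ℝ)) := by exact_mod_cast hD1
      rw [abs_of_nonneg h2, abs_of_nonneg (by positivity : (0 : ℝ) ≤ 3 ^ (n - B + a))]
      norm_num
    have h2 : (((c.R y : ℤ) - ρ : ℤ) : ℝ) ≤ 3 ^ (n - a) := by exact_mod_cast hD2.le
    rw [h1, div_le_div_iff₀ hℓ0 h3B]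
    calc 2 * (((c.R y : ℤ) - ρ : ℤ) : ℝ) * 3 ^ (n - B + a) * 3 ^ B
        ≤ 2 * 3 ^ (n - a) * 3 ^ (n - B + a) * 3 ^ B := by gcongr
      _ = 2 * (3 ^ (n - a) * 3 ^ (n - B + a) * 3 ^ B) := by ring
      _ = 2 * 3 ^ κ * ℓ := by rw [hpB, ← hpκ]; ring
  have hw : ∀ y ∈ Y, Real.exp (-(2 * 3 ^ κ / 3 ^ B)) * wt c κ p y ≤ wt c κ (Psi i ρ p) y ∧
      wt c κ (Psi i ρ p) y ≤ Real.exp (2 * 3 ^ κ / 3 ^ B) * wt c κ p y := by
    intro y hy
    have h1 := hchi2 (uv c p y) (d y)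
    have h2 : wt c κ (Psi i ρ p) y = chi ℓ (uv c p y + (d y : ZMod (3 ^ (2 * n)))) := by
      unfold wt
      rw [hu p y]
    have h3 : wt c κ p y = chi ℓ (uv c p y) := rfl
    have h4 : 0 ≤ chi ℓ (uv c p y) := (hchi1 _).1.le
    rw [h2, h3]
    refine ⟨le_trans ?_ h1.1, h1.2.trans ?_⟩
    · exact mul_le_mul_of_nonneg_right (Real.exp_le_exp.2 (neg_le_neg (hdabs y hy))) h4
    · exact mul_le_mul_of_nonneg_right (Real.exp_le_exp.2 (hdabs y hy)) h4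
  refine ⟨hw, ?_⟩
  have hwpos : ∀ (p : St n) (y : Fin (3 ^ n)), 0 < wt c κ p y := fun p y => (hchi1 _).1
  -- the error of the weights
  have hε3 : (2 : ℝ) * 3 ^ κ / 3 ^ B ≤ 2 / 3 := by
    rw [div_le_div_iff₀ h3B (by norm_num)]
    have : (3 : ℝ) ^ (κ + 1) ≤ 3 ^ B := pow_le_pow_right₀ (by norm_num) (by omega)
    rw [pow_succ] at this
    linarith
  have hε30 : (0 : ℝ) ≤ 2 * 3 ^ κ / 3 ^ B := by positivity
  have hwdiff : ∀ y ∈ Y, |wt c κ (Psi i ρ p) y - wt c κ p y| ≤ 3 * 3 ^ κ / 3 ^ B * wt c κ p y := by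
    intro y hy
    obtain ⟨h1, h2⟩ := hw y hy
    have h3 := ST1_exp hε30 hε3
    have h4 : 1 - 2 * 3 ^ κ / 3 ^ B ≤ Real.exp (-(2 * 3 ^ κ / 3 ^ B : ℝ)) := by
      have := Real.add_one_le_exp (-(2 * 3 ^ κ / 3 ^ B : ℝ)); linarith
    have h5 := hwpos p y
    have e1 : (3 : ℝ) * 3 ^ κ / 3 ^ B = 3 / 2 * (2 * 3 ^ κ / 3 ^ B) := by ring
    rw [abs_le, e1]
    constructor
    · nlinarith
    · nlinarith
  -- the phases
  set s : ℝ := ((sg i p.2 : ℤ) : ℝ) with hs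
  set Cst : ℂ := Complex.exp ((2 * Real.pi * (s * 2 * ζ * r) : ℝ) * Complex.I) with hCst
  have hCst1 : ‖Cst‖ = 1 := Complex.norm_exp_ofReal_mul_I _
  set e : ℕ → ℂ := fun r' => Complex.exp ((2 * Real.pi * (-s * 2 * ζ * r' / 3 ^ (b - a)) : ℝ)
    * Complex.I) with he
  have he1 : ∀ r', ‖e r'‖ = 1 := fun r' => Complex.norm_exp_ofReal_mul_I _
  have hphase : ∀ y ∈ Y, ‖ch (x : ZMod (3 ^ (2 * n))) (d y : ZMod (3 ^ (2 * n)))
      - Cst * e (rc n sh b (c.R y))‖ ≤ 5 / 3 ^ g := by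
    intro y hy
    set r' := rc n sh b (c.R y) with hr'
    set rem : ℕ := (c.R y + sh) % 3 ^ (n - b) with hrem
    have hremlt : rem < 3 ^ (n - b) := Nat.mod_lt _ (by positivity)
    have h1 : (c.R y : ℝ) + sh = r' * 3 ^ (n - b) + rem := by
      have h2 := Nat.div_add_mod (c.R y + sh) (3 ^ (n - b))
      have h3 : 3 ^ (n - b) * r' + rem = c.R y + sh := h2
      have h4 : (3 : ℝ) ^ (n - b) * r' + rem = c.R y + sh := by exact_mod_cast h3
      linarith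
    have hc := hch3 (x : ℤ) (d y)
    have e0 : (((x : ℤ) : ZMod (3 ^ (2 * n)))) = (x : ZMod (3 ^ (2 * n))) := by push_cast; rfl
    rw [e0] at hc
    have hxd : (x : ℝ) * (d y : ℝ) / 3 ^ (2 * n)
        = s * 2 * ζ * r + (-s * 2 * ζ * r' / 3 ^ (b - a)) + (-s * 2 * ζ * rem / 3 ^ (n - a)) := by
      have h5 : (d y : ℝ) = -(2 * s * ((c.R y : ℝ) + sh - r * 3 ^ (n - a)) * 3 ^ (n - B + a)) := by
        simp only [hd, hn1i, hρ]
        push_cast
        ring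
      have h6 : (3 : ℝ) ^ (n - a) = 3 ^ (n - b) * 3 ^ (b - a) := by
        rw [← pow_add]; congr 1; omega
      rw [h5, hx, h1, ← hpB, h6]
      field_simp
      ring
    have hexp : ch (x : ZMod (3 ^ (2 * n))) (d y : ZMod (3 ^ (2 * n)))
        = Cst * e r' * Complex.exp ((2 * Real.pi * (-s * 2 * ζ * rem / 3 ^ (n - a)) : ℝ)
          * Complex.I) := by
      rw [hc, hCst, he]
      simp only
      rw [← Complex.exp_add, ← Complex.exp_add]
      congr 1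
      have h7 : (2 * (Real.pi : ℂ) * Complex.I * (((x : ℤ) : ℂ) * ((d y : ℤ) : ℂ)
          / ((3 ^ (2 * n) : ℕ) : ℂ))) = ((2 * Real.pi * ((x : ℝ) * (d y : ℝ) / 3 ^ (2 * n)) : ℝ) : ℂ)
            * Complex.I := by
        push_cast; ring
      rw [h7, hxd]
      push_cast
      ring
    rw [hexp]
    have h8 : Cst * e r' * Complex.exp ((2 * Real.pi * (-s * 2 * ζ * rem / 3 ^ (n - a)) : ℝ)
          * Complex.I) - Cst * e r' = Cst * e r' * (Complex.exp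
          ((2 * Real.pi * (-s * 2 * ζ * rem / 3 ^ (n - a)) : ℝ) * Complex.I) - 1) := by ring
    rw [h8, norm_mul, norm_mul, hCst1, he1, one_mul, one_mul]
    refine (ST1_phase _).trans ?_
    rw [abs_mul, abs_mul, abs_div, abs_mul, abs_mul, abs_mul, abs_neg, hsg']
    rw [abs_of_nonneg (by positivity : (0 : ℝ) ≤ (rem : ℝ)), abs_of_pos Real.pi_pos,
      abs_of_nonneg (by linarith : (0 : ℝ) ≤ ζ),
      abs_of_nonneg (by positivity : (0 : ℝ) ≤ 3 ^ (n - a)), abs_of_pos (by norm_num : (0 : ℝ) < 2)]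
    have h9 : (rem : ℝ) / 3 ^ (n - a) ≤ 1 / 3 ^ g := by
      rw [div_le_div_iff₀ (by positivity) (by positivity), one_mul]
      have h10 : (rem : ℝ) ≤ 3 ^ (n - b) := by exact_mod_cast hremlt.le
      calc (rem : ℝ) * 3 ^ g ≤ 3 ^ (n - b) * 3 ^ g := by gcongr
        _ = 3 ^ (n - b + g) := by rw [pow_add]
        _ ≤ 3 ^ (n - a) := pow_le_pow_right₀ (by norm_num) (by omega)
    have hpi : Real.pi < 3.15 := Real.pi_lt_d2
    calc 2 * Real.pi * (1 * 2 * ζ * rem / 3 ^ (n - a))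
        = 4 * Real.pi * ζ * (rem / 3 ^ (n - a)) := by ring
      _ ≤ 4 * 3.15 * (3 / 8) * (1 / 3 ^ g) := by gcongr
      _ ≤ 5 / 3 ^ g := by
          rw [mul_one_div]
          gcongr
          norm_num
  refine ⟨e, ?_, ?_⟩
  · have hph : ∀ r' : ℕ, ph ζ (b - a) r' =
        Complex.exp ((2 * Real.pi * (2 * ζ * r' / 3 ^ (b - a)) : ℝ) * Complex.I) := by
      intro r'
      unfold ph
      congr 1
      push_cast
      ring
    rcases hsg p with h | h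
    · right
      intro r'
      rw [hph, ← Complex.exp_conj, map_mul, Complex.conj_I, Complex.conj_ofReal, he]
      simp only
      congr 1
      rw [hs, h]
      push_cast
      ring
    · left
      intro r'
      rw [hph, he]
      simp only
      congr 1
      rw [hs, h]
      push_cast
      ring
  · rw [ST1_fib c κ b sh _ p Y e hsh]
    set T : ℂ := ∑ y ∈ Y, (wt c κ p y : ℂ) * ch (x : ZMod (3 ^ (2 * n))) (uv c p y)
      * e (rc n sh b (c.R y)) with hT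
    have hdiff : ‖VV c κ (x : ZMod (3 ^ (2 * n))) (Psi i ρ p) Y - Cst * T‖ ≤
        (3 * 3 ^ κ / 3 ^ B + 5 / 3 ^ g) * ∑ y ∈ Y, wt c κ p y := by
      unfold VV
      rw [hT, Finset.mul_sum, ← Finset.sum_sub_distrib, Finset.mul_sum]
      refine (norm_sum_le _ _).trans (Finset.sum_le_sum fun y hy => ?_)
      rw [hu p y, hch2]
      set W := ch (x : ZMod (3 ^ (2 * n))) (uv c p y) with hW
      set P := ch (x : ZMod (3 ^ (2 * n))) (d y : ZMod (3 ^ (2 * n))) with hP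
      have e1 : ((wt c κ (Psi i ρ p) y : ℝ) : ℂ) * (W * P)
          - Cst * (((wt c κ p y : ℝ) : ℂ) * W * e (rc n sh b (c.R y)))
          = W * (((wt c κ (Psi i ρ p) y - wt c κ p y : ℝ) : ℂ) * P
            + ((wt c κ p y : ℝ) : ℂ) * (P - Cst * e (rc n sh b (c.R y)))) := by
        push_cast; ring
      show ‖((wt c κ (Psi i ρ p) y : ℝ) : ℂ) * (W * P)
          - Cst * (((wt c κ p y : ℝ) : ℂ) * W * e (rc n sh b (c.R y)))‖ ≤ _
      rw [e1, norm_mul, hch1, one_mul]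
      refine (norm_add_le _ _).trans ?_
      rw [norm_mul, norm_mul, hch1, mul_one, Complex.norm_real, Complex.norm_real,
        Real.norm_eq_abs, Real.norm_of_nonneg (hwpos p y).le, add_mul]
      refine add_le_add (hwdiff y hy) ?_
      rw [mul_comm]
      exact mul_le_mul_of_nonneg_right (hphase y hy) (hwpos p y).le
    have h1 : ‖VV c κ (x : ZMod (3 ^ (2 * n))) (Psi i ρ p) Y‖ ≤ ‖Cst * T‖
        + ‖VV c κ (x : ZMod (3 ^ (2 * n))) (Psi i ρ p) Y - Cst * T‖ := by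
      have := norm_add_le (Cst * T) (VV c κ (x : ZMod (3 ^ (2 * n))) (Psi i ρ p) Y - Cst * T)
      rwa [add_sub_cancel] at this
    rw [norm_mul, hCst1, one_mul] at h1
    linarith

end Pool.Agent.GA
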