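import Pool.Agent.helper4.GA.Spec

set_option autoImplicit false

open Finset
open Pool.Agent.helper32.Cant

namespace Pool.Agent.GA

theorem STP_real {α β v h h' N S δ E ε η : ℝ} (hE : 1 ≤ E) (hh : 0 < h) (hh' : h ≤ E * h')
    (hN : 0 < N) (hη : 0 < η) (hηN : η * N ≤ h) (hδ : 0 < δ) (hv0 : 0 ≤ v)
    (hv : v ≤ β + ε * N) (hS : α ^ 2 + β ^ 2 ≤ 2 * h * S) :
    α ^ 2 / h + v ^ 2 / h' ≤ 2 * ((1 + δ) * E) * S + (1 + 1 / δ) * E * ε ^ 2 / η * N := by
  have hE0 : 0 < E := by linarith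
  have hh'0 : 0 < h' := by
    have : 0 < E * h' := lt_of_lt_of_le hh hh'
    exact (pos_iff_pos_of_mul_pos this).1 hE0
  have h1 : v ^ 2 ≤ (1 + δ) * β ^ 2 + (1 + 1 / δ) * ε ^ 2 * N ^ 2 := by
    have h2 : v ^ 2 ≤ (β + ε * N) ^ 2 := by
      apply pow_le_pow_left₀ hv0 hv
    have h3 : (β + ε * N) ^ 2 ≤ (1 + δ) * β ^ 2 + (1 + 1 / δ) * ε ^ 2 * N ^ 2 := by
      have h4 : 0 ≤ (δ * β - ε * N) ^ 2 / δ := by positivity
      have h5 : (1 + δ) * β ^ 2 + (1 + 1 / δ) * ε ^ 2 * N ^ 2 - (β + ε * N) ^ 2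
          = (δ * β - ε * N) ^ 2 / δ := by
        field_simp; ring
      linarith
    linarith
  have h2 : v ^ 2 / h' ≤ E * (v ^ 2 / h) := by
    rw [← mul_div_assoc, div_le_div_iff₀ hh'0 hh]
    have : 0 ≤ v ^ 2 := by positivity
    nlinarith
  have h3 : N ^ 2 / h ≤ N / η := by
    rw [div_le_div_iff₀ hh hη]
    nlinarith
  have h4 : v ^ 2 / h ≤ (1 + δ) * (β ^ 2 / h) + (1 + 1 / δ) * ε ^ 2 * (N / η) := by
    calc v ^ 2 / h ≤ ((1 + δ) * β ^ 2 + (1 + 1 / δ) * ε ^ 2 * N ^ 2) / h := by gcongr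
      _ = (1 + δ) * (β ^ 2 / h) + (1 + 1 / δ) * ε ^ 2 * (N ^ 2 / h) := by ring
      _ ≤ _ := by gcongr
  have h5 : (α ^ 2 + β ^ 2) / h ≤ 2 * S := by
    rw [div_le_iff₀ hh]; linarith
  have h6 : α ^ 2 / h ≤ (1 + δ) * E * (α ^ 2 / h) := by
    have h7 : 0 ≤ α ^ 2 / h := by positivity
    have h8 : 1 ≤ (1 + δ) * E := by nlinarith
    nlinarith
  calc α ^ 2 / h + v ^ 2 / h' ≤ (1 + δ) * E * (α ^ 2 / h)
        + E * ((1 + δ) * (β ^ 2 / h) + (1 + 1 / δ) * ε ^ 2 * (N / η)) := by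
        have := mul_le_mul_of_nonneg_left h4 hE0.le
        linarith
    _ = (1 + δ) * E * ((α ^ 2 + β ^ 2) / h) + (1 + 1 / δ) * E * ε ^ 2 / η * N := by
        field_simp; ring
    _ ≤ (1 + δ) * E * (2 * S) + (1 + 1 / δ) * E * ε ^ 2 / η * N := by
        have : 0 ≤ (1 + δ) * E := by positivity
        have := mul_le_mul_of_nonneg_left h5 this
        linarith
    _ = _ := by ring

theorem STP (hCHI : CHI_stmt) (hFLP : FLP_stmt) (hALG : ALG_stmt) (hPOT : POT_stmt)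
    (hST1 : ST1_stmt) : STP_stmt := by
  intro n c κ B a b g sh x r l ζ η δ Y hκB hBn haκ hab hbn hsh hx hζ1 hζ2 hη hη1 hδ hY
  have hwpos : ∀ (p : St n) (y : Fin (3 ^ n)), 0 < wt c κ p y := fun p y =>
    ((hCHI (3 ^ (2 * n)) ((3 : ℝ) ^ (2 * n - κ)) (by positivity)).1 _).1
  set ξ : ZMod (3 ^ (2 * n)) := (x : ZMod (3 ^ (2 * n))) with hξ
  set Yc : ℕ → Finset (Fin (3 ^ n)) := fun r' => {y ∈ Y | rc n sh b (c.R y) = r'} with hYc
  set N : St n → ℝ := fun p => ∑ y ∈ Y, wt c κ p y with hNdef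
  set H : St n → ℝ := fun p => pot n sh ζ η c.R (wt c κ p) (a :: b :: l) Y with hHdef
  set Hc : St n → ℕ → ℝ := fun p r' => pot n sh ζ η c.R (wt c κ p) (b :: l) (Yc r') with hHcdef
  set V : St n → ℂ := fun p => VV c κ ξ p Y with hVdef
  set Vc : St n → ℕ → ℂ := fun p r' => VV c κ ξ p (Yc r') with hVcdef
  set S : St n → ℝ := fun p => ∑ r' ∈ range (3 ^ (n + 1)), ‖Vc p r'‖ ^ 2 / Hc p r' with hSdef
  set E : ℝ := Real.exp (2 * 3 ^ κ / 3 ^ B) with hEdef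
  set ε : ℝ := 3 * 3 ^ κ / 3 ^ B + 5 / 3 ^ g with hεdef
  have hE1 : 1 ≤ E := Real.one_le_exp (by positivity)
  have hε0 : 0 ≤ ε := by positivity
  set i := B - 1 - a with hi
  set ρ : ℤ := (r : ℤ) * 3 ^ (n - a) - sh with hρ
  have hin : i < n := by omega
  have hpotn : ∀ (p : St n) (L : List ℕ) (Z : Finset (Fin (3 ^ n))),
      η * ∑ y ∈ Z, wt c κ p y ≤ pot n sh ζ η c.R (wt c κ p) L Z ∧
      pot n sh ζ η c.R (wt c κ p) L Z ≤ ∑ y ∈ Z, wt c κ p y := by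
    intro p L Z
    have := hPOT _ n sh ζ η c.R hη.le hη1 L Z (wt c κ p) (fun x _ => (hwpos p x).le)
    exact ⟨this.1, this.2.1⟩
  have hHc0 : ∀ p r', 0 ≤ Hc p r' := by
    intro p r'
    have h1 := (hpotn p (b :: l) (Yc r')).1
    have h2 : 0 ≤ ∑ y ∈ Yc r', wt c κ p y := Finset.sum_nonneg fun y _ => (hwpos p y).le
    have : 0 ≤ η * ∑ y ∈ Yc r', wt c κ p y := by positivity
    exact this.trans h1
  have hS0 : ∀ p, 0 ≤ S p := fun p =>
    Finset.sum_nonneg fun r' _ => div_nonneg (by positivity) (hHc0 p r')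
  have hN0 : ∀ p, 0 ≤ N p := fun p => Finset.sum_nonneg fun y _ => (hwpos p y).le
  -- the right-hand side in terms of `S`
  have hRHS : (∑ r' ∈ range (3 ^ (n + 1)), ∑ p, ‖VV c κ ξ p (Yc r')‖ ^ 2
      / pot n sh ζ η c.R (wt c κ p) (b :: l) (Yc r')) = ∑ p, S p := by
    rw [Finset.sum_comm]
  rw [hRHS]
  show ∑ p, ‖V p‖ ^ 2 / H p ≤ (1 + δ) * E * (∑ p, S p)
    + (1 + 1 / δ) * E * ε ^ 2 / (2 * η) * ∑ p, N p
  rcases Y.eq_empty_or_nonempty with hYe | hYne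
  · have hV0 : ∀ p, V p = 0 := by
      intro p; simp [hVdef, VV, hYe]
    have h1 : ∑ p, ‖V p‖ ^ 2 / H p = 0 := Finset.sum_eq_zero fun p _ => by simp [hV0 p]
    rw [h1]
    have h2 : 0 ≤ ∑ p, S p := Finset.sum_nonneg fun p _ => hS0 p
    have h3 : 0 ≤ ∑ p, N p := Finset.sum_nonneg fun p _ => hN0 p
    positivity
  have hNpos : ∀ p, 0 < N p := fun p => Finset.sum_pos (fun y _ => hwpos p y) hYne
  have hHpos : ∀ p, 0 < H p := fun p => lt_of_lt_of_le (by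
    have := hNpos p
    positivity) (hpotn p (a :: b :: l) Y).1
  -- the key inequality for one `p`
  have hkey : ∀ p, ‖V p‖ ^ 2 / H p + ‖V (Psi i ρ p)‖ ^ 2 / H (Psi i ρ p) ≤
      2 * ((1 + δ) * E) * S p + (1 + 1 / δ) * E * ε ^ 2 / η * N p := by
    intro p
    obtain ⟨hw, e, he, hVe⟩ := hST1 n c κ B a b g sh x r ζ Y p hκB hBn haκ hab hbn hsh hx hζ1 hζ2 hY
    have he1 : ∀ r', ‖e r'‖ = 1 := by
      intro r'
      have h0 : ‖ph ζ (b - a) r'‖ = 1 := by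
        unfold ph
        rw [show (2 * (Real.pi : ℂ) * Complex.I * (2 * (ζ : ℂ) * (r' : ℂ) / 3 ^ (b - a)))
          = ((2 * Real.pi * (2 * ζ * r' / 3 ^ (b - a)) : ℝ) : ℂ) * Complex.I by
            push_cast; ring]
        exact Complex.norm_exp_ofReal_mul_I _
      rcases he with he | he
      · rw [he, h0]
      · rw [he, RCLike.norm_conj, h0]
    have hsum : ∑ r' ∈ range (3 ^ (n + 1)), Vc p r' = V p := by
      simp only [hVcdef, hVdef, VV, hYc]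
      rw [Finset.sum_fiberwise_of_maps_to]
      intro y _
      rw [Finset.mem_range]
      unfold rc
      have h1 : c.R y + sh < 3 ^ (n + 1) := by
        have := c.hi y
        rw [pow_succ]; omega
      exact lt_of_le_of_lt (Nat.div_le_self _ _) h1
    have hnorm : ‖∑ r' ∈ range (3 ^ (n + 1)), (Hc p r' : ℂ) * e r'‖
        = ‖∑ r' ∈ range (3 ^ (n + 1)), (Hc p r' : ℂ) * ph ζ (b - a) r'‖ := by
      rcases he with he | he
      · simp only [he]
      · rw [← RCLike.norm_conj (K := ℂ), map_sum]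
        congr 1
        refine Finset.sum_congr rfl fun r' _ => ?_
        rw [he, map_mul, Complex.conj_conj, Complex.conj_ofReal]
    have hHge : (∑ r' ∈ range (3 ^ (n + 1)), Hc p r'
        + ‖∑ r' ∈ range (3 ^ (n + 1)), (Hc p r' : ℂ) * e r'‖) ≤ 2 * H p := by
      rw [hnorm]
      have : (∑ r' ∈ range (3 ^ (n + 1)), Hc p r'
        + ‖∑ r' ∈ range (3 ^ (n + 1)), (Hc p r' : ℂ) * ph ζ (b - a) r'‖) / 2 ≤ H p := by
        simp only [hHdef, hHcdef, hYc]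
        conv_rhs => rw [pot]
        exact le_max_left _ _
      linarith
    have halg := hALG (range (3 ^ (n + 1))) (Vc p) e (Hc p) (fun r' _ => hHc0 p r')
      (fun r' _ h0 => by
        have h1 := (hpotn p (b :: l) (Yc r')).1
        have h2 : Yc r' = ∅ := by
          by_contra hne
          have h3 : 0 < ∑ y ∈ Yc r', wt c κ p y :=
            Finset.sum_pos (fun y _ => hwpos p y) (Finset.nonempty_iff_ne_empty.2 hne)
          have h4 : 0 < η * ∑ y ∈ Yc r', wt c κ p y := by positivity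
          have h5 : Hc p r' = pot n sh ζ η c.R (wt c κ p) (b :: l) (Yc r') := rfl
          rw [← h5, h0] at h1
          linarith
        show VV c κ ξ p (Yc r') = 0
        simp [VV, h2]) (fun r' _ => he1 r')
    rw [hsum] at halg
    have hSle : ‖V p‖ ^ 2 + ‖∑ r' ∈ range (3 ^ (n + 1)), Vc p r' * e r'‖ ^ 2 ≤ 2 * H p * S p :=
      halg.trans (mul_le_mul_of_nonneg_right hHge (hS0 p))
    have hHE : H p ≤ E * H (Psi i ρ p) := by
      have h1 := hPOT _ n sh ζ η c.R hη.le hη1 (a :: b :: l) Y (fun y => E⁻¹ * wt c κ p y)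
        (fun y _ => mul_nonneg (by positivity) (hwpos p y).le)
      have h2 := h1.2.2.1 (wt c κ (Psi i ρ p)) (fun y hy => by
        have := (hw y hy).1
        rwa [Real.exp_neg] at this)
      have h3 := (hPOT _ n sh ζ η c.R hη.le hη1 (a :: b :: l) Y (wt c κ p)
        (fun y _ => (hwpos p y).le)).2.2.2 E⁻¹ (by positivity)
      rw [h3] at h2
      have hE0 : 0 < E := by linarith
      calc H p = E * (E⁻¹ * H p) := by field_simp
        _ ≤ E * H (Psi i ρ p) := mul_le_mul_of_nonneg_left h2 hE0.le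
    exact STP_real hE1 (hHpos p) hHE (hNpos p) hη (hpotn p (a :: b :: l) Y).1 hδ (norm_nonneg _)
      hVe hSle
  have hflp := (hFLP n c i ρ hin).2.2.2 (fun p => ‖V p‖ ^ 2 / H p)
  have htot : 2 * ∑ p, ‖V p‖ ^ 2 / H p ≤
      2 * ((1 + δ) * E) * ∑ p, S p + (1 + 1 / δ) * E * ε ^ 2 / η * ∑ p, N p := by
    calc 2 * ∑ p, ‖V p‖ ^ 2 / H p
        = ∑ p, (‖V p‖ ^ 2 / H p + ‖V (Psi i ρ p)‖ ^ 2 / H (Psi i ρ p)) := by
          rw [Finset.sum_add_distrib, hflp]; ring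
      _ ≤ ∑ p, (2 * ((1 + δ) * E) * S p + (1 + 1 / δ) * E * ε ^ 2 / η * N p) :=
          Finset.sum_le_sum fun p _ => hkey p
      _ = _ := by rw [Finset.sum_add_distrib, ← Finset.mul_sum, ← Finset.mul_sum]
  have e1 : (1 + 1 / δ) * E * ε ^ 2 / (2 * η) * ∑ p, N p
      = ((1 + 1 / δ) * E * ε ^ 2 / η * ∑ p, N p) / 2 := by
    field_simp
  rw [e1]
  linarith

end Pool.Agent.GA
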