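import Pool.Agent.helper35.GA.CHR
import Pool.Agent.helper35.GA.CHI
import Pool.Agent.helper49.GA.FLP
import Pool.Agent.helper93.GA.ALG
import Pool.Agent.helper52.GA.POT
import Pool.Agent.helper4.GA.ST1
import Pool.Agent.helper4.GA.STP
import Pool.Agent.helper4.GA.ON1
import Pool.Agent.helper4.GA.ONE
import Pool.Agent.helper99.GA.NOD
import Pool.Agent.helper72.GA.TRE
import Pool.Agent.helper99.GA.CNC
import Pool.Agent.helper82.GA.CMB
import Pool.Agent.helper84.GA.BAL
import Pool.Agent.helper10.GA.CV1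
import Pool.Agent.helper46.GA.CV2
import Pool.Agent.helper32.GA.LGW
import Pool.Agent.helper71.GA.UPP
import Pool.Agent.helper52.GA.SHF
import Pool.Agent.helper52.GA.CHN
import Pool.Agent.helper71.GA.PT1
import Pool.Agent.helper83.GA.PT2
import Pool.Agent.helper36.GA.AVG
import Pool.Agent.helper93.GA.TW1
import Pool.Agent.helper74.GA.TWO
import Pool.Agent.helper4.GA.MPP
import Pool.Agent.helper76.GA.PSV
import Pool.Agent.helper92.GA.MUL
import Pool.Agent.helper77.GA.NRM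
import Pool.Agent.helper99.GA.SMU
import Pool.Agent.helper84.GA.DSM
import Pool.Agent.helper8.GA.WI1
import Pool.Agent.helper24.GA.WI2
import Pool.Agent.helper3.GA.WIN
import Pool.Agent.helper82.GA.UFB
import Pool.Agent.helper34.GA.LMT
import Pool.Agent.helper82.GA.PTH
import Pool.Agent.helper97.GA.CEL
import Pool.Agent.helper63.GA.FP1
import Pool.Agent.helper72.GA.FP2
import Pool.Agent.helper39.GA.FS1
import Pool.Agent.helper46.GA.FSC
import Pool.Agent.helper39.GA.FEW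
import Pool.Agent.helper97.GA.CFG
import Pool.Agent.helper27.GA.FIN

set_option autoImplicit false

/-!
# MP_3c0a64_an, gauge form: assembly of the rows ga:X
-/

namespace Pool.Agent.GA

theorem fCHR : CHR_stmt := CHR
theorem fCHI : CHI_stmt := CHI
theorem fFLP : FLP_stmt := FLP
theorem fALG : ALG_stmt := ALG
theorem fPOT : POT_stmt := POT
theorem fST1 : ST1_stmt := ST1 fCHR fCHI fFLP
theorem fSTP : STP_stmt := STP fCHI fFLP fALG fPOT fST1
theorem fON1 : ON1_stmt := ON1 fCHI fSTP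
theorem fONE : ONE_stmt := ONE fCHI fPOT fON1
theorem fNOD : NOD_stmt := NOD
theorem fTRE : TRE_stmt := TRE fPOT fNOD
theorem fCNC : CNC_stmt := CNC
theorem fCMB : CMB_stmt := CMB fTRE fCNC
theorem fBAL : BAL_stmt := BAL
theorem fCV1 : CV1_stmt := CV1
theorem fCV2 : CV2_stmt := CV2
theorem fLGW : LGW_stmt := LGW
theorem fUPP : UPP_stmt := UPP
theorem fSHF : SHF_stmt := SHF
theorem fCHN : CHN_stmt := CHN
theorem fPT1 : PT1_stmt := PT1
theorem fPT2 : PT2_stmt := PT2 fCHN fPT1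
theorem fAVG : AVG_stmt := AVG fSHF fPT1 fPT2
theorem fTW1 : TW1_stmt := TW1 fCHI fCMB fBAL fPT1
theorem fTWO : TWO_stmt := TWO fCHI fCV1 fCV2 fLGW fUPP fAVG fTW1
theorem fMPP : MPP_stmt := MPP fCHI fPOT fONE fPT1 fTWO
theorem fPSV : PSV_stmt := PSV fCHR
theorem fMUL : MUL_stmt := MUL fCHR
theorem fNRM : NRM_stmt := NRM
theorem fSMU : SMU_stmt := SMU fMUL fNRM
theorem fDSM : DSM_stmt := DSM fCHR fCHI fMPP fPSV fSMU
theorem fWI1 : WI1_stmt := WI1
theorem fWI2 : WI2_stmt := WI2 fCHI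
theorem fWIN : WIN_stmt := WIN fWI1 fWI2
theorem fUFB : UFB_stmt := UFB fCHI fDSM fWIN
theorem fLMT : LMT_stmt := LMT
theorem fPTH : PTH_stmt := PTH
theorem fCEL : CEL_stmt := CEL
theorem fFP1 : FP1_stmt := FP1
theorem fFP2 : FP2_stmt := FP2
theorem fFS1 : FS1_stmt := FS1 fUFB fLMT fPTH fFP1 fFP2
theorem fFSC : FSC_stmt := FSC fCEL fFS1
theorem fFEW : FEW_stmt := FEW
theorem fCFG : CFG_stmt := CFG
theorem fFIN : FIN_stmt := FIN fFSC fFEW fCFG

end Pool.Agent.GA
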