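import Pool.Agent.helper4.GA.Defs

set_option autoImplicit false

/-!
# MP_3c0a64_an, gauge form: every admissible set has infinite measure for the gauge
`t exp (C (log log (1/t))^3)`, rows `ga:X`

Prove `X_stmt` in `Pool/Agent/<seat>/GA/X.lean`, namespace `Pool.Agent.GA`, auxiliary lemmas prefixed `X_`.
The theorem has the rows listed after the word from as hypotheses, in this order, e.g.
`theorem STP (h1 : CHI_stmt) (h2 : FLP_stmt) ... : STP_stmt`.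

Plan. For a frequency `x = ζ 3^B` (`1/8 ≤ ζ ≤ 3/8`) and a state `p` let `V = ∑ wt ch` over the centres.
Flipping the letter `B-1-a` of the word, compensated for one radius `ρ` per cell of level `a`, is a
bijection of the states which multiplies the terms of `V` by a phase which depends on the next digits of the
radius and moves `u` by less than `2 * 3^(2n-B)`. A potential `pot` (a recursion over a list
of levels) with `∑_p ‖V‖²/pot ≤ 15 mass` (ONE) is small compared with the mass if the radii of the centres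
branch often, which is the case if the state is heavy (TWO, over a random list of levels). This gives MPP:
small exponential sums on average over the heavy states. Fourier inversion (Parseval over all translates, DSM), the
comparison with cells (WIN, UFB) and the path argument of the landed dimension proof (PTH) give the
finite scale theorem FSC; the rows FEW, CFG, FIN pass to the gauge.

`ind`, `ex`, `ce`, `pm`, `mu`, `obs`, `Uf`, `lam`, `Lam`, `Ycard` are those of `Pool.Agent.helper32.Cant`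
(`Ycard` is in `Pool.Agent.helper30.Cant.YCARD`). Lemmas on them: `helper32.Cant.Basic`, `helper30.Cant.LAM1`
(`lam_zero`, `lam_succ_le`, `lam_small`), `helper30.Cant.LAM2` (`lam_step`), `helper35.Cant.MU`,
`helper44.Cant.GEO` (`cell_lt`, `cell_div`, `abs_E_le`, `cell_diam`).
-/

open Finset
open Pool.Agent.helper32.Cant

namespace Pool.Agent.GA

/-! ### Group A: characters, windows, flips, algebra -/

/-- **Row CHR** (short). `ZMod.stdAddChar` is an additive character with values of norm one;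
`ZMod.stdAddChar_coe`. -/
def CHR_stmt : Prop := ∀ (M : ℕ) [NeZero M],
  (∀ ξ v : ZMod M, ‖ch ξ v‖ = 1) ∧
  (∀ ξ v v' : ZMod M, ch ξ (v + v') = ch ξ v * ch ξ v') ∧
  (∀ x d : ℤ, ch (x : ZMod M) (d : ZMod M) =
    Complex.exp (2 * Real.pi * Complex.I * ((x : ℂ) * d / M))) ∧
  (∀ ξ v : ZMod M, ch (-ξ) v = (starRingEnd ℂ) (ch ξ v))

/-- **Row CHI** (short-medium). `nrm (v + d) ≤ nrm v + |d|` (`ZMod.natAbs_valMinAbs_add_le`, and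
`|valMinAbs d| ≤ |d|` for an integer `d`), applied also to `v = (v + d) + (-d)`. Sum: every value of `|valMinAbs|` is taken
at most twice, the value `0` once: `∑ chi ≤ 1 + 2 ∑_(t ≥ 1) e^(-t/ℓ) = 1 + 2/(e^(1/ℓ) - 1) ≤ 1 + 2 ℓ`. -/
def CHI_stmt : Prop := ∀ (M : ℕ) [NeZero M] (ℓ : ℝ), 0 < ℓ →
  (∀ v : ZMod M, 0 < chi ℓ v ∧ chi ℓ v ≤ 1) ∧
  (∀ (v : ZMod M) (d : ℤ), Real.exp (-(|(d : ℝ)| / ℓ)) * chi ℓ v ≤ chi ℓ (v + (d : ZMod M)) ∧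
    chi ℓ (v + (d : ZMod M)) ≤ Real.exp (|(d : ℝ)| / ℓ) * chi ℓ v) ∧
  ∑ v : ZMod M, chi ℓ v ≤ 1 + 2 * ℓ

/-- **Row FLP** (short-medium). `sg i (flp i w) = - sg i w`, `E (flp i w) = E w - 2 (sg i w) 3^(n-1-i)`,
so with `τ' = τ + 2 (sg) ρ 3^(n-1-i)` the point `3^n x + R E + τ` changes by
`-2 (sg) (R - ρ) 3^(n-1-i)`. `Psi` is an involution, hence a bijection of the states. -/
def FLP_stmt : Prop := ∀ (n : ℕ) (c : Cfg n) (i : ℕ) (ρ : ℤ), i < n →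
  (∀ p : St n, Psi i ρ (Psi i ρ p) = p) ∧ (∀ p : St n, sg i p.2 = 1 ∨ sg i p.2 = -1) ∧
  (∀ (p : St n) (x : Fin (3 ^ n)), uv c (Psi i ρ p) x = uv c p x
    + ((-(2 * sg i p.2 * ((c.R x : ℤ) - ρ) * 3 ^ (n - 1 - i)) : ℤ) : ZMod (3 ^ (2 * n)))) ∧
  (∀ f : St n → ℝ, ∑ p, f (Psi i ρ p) = ∑ p, f p)

/-- **Row ALG** (short-medium). Let `A = ∑ V`, `B = ∑ V e`, `m = ‖A‖² + ‖B‖²`. Then
`m = ∑ V_r (conj A + e_r conj B)` (a real number), so by Cauchy-Schwarz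
`m² ≤ (∑ ‖V_r‖²/H_r) (∑ H_r ‖conj A + e_r conj B‖²)`, and
`∑ H_r ‖conj A + e_r conj B‖² = (∑ H) m + 2 Re (A conj(B) ∑ H_r conj(e_r))`
`≤ (∑ H) m + 2 ‖A‖ ‖B‖ ‖∑ H e‖ ≤ (∑ H + ‖∑ H e‖) m`. Divide by `m` (nothing to prove if `m = 0`). -/
def ALG_stmt : Prop := ∀ (s : Finset ℕ) (V e : ℕ → ℂ) (H : ℕ → ℝ),
  (∀ r ∈ s, 0 ≤ H r) → (∀ r ∈ s, H r = 0 → V r = 0) → (∀ r ∈ s, ‖e r‖ = 1) →
  ‖∑ r ∈ s, V r‖ ^ 2 + ‖∑ r ∈ s, V r * e r‖ ^ 2 ≤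
    (∑ r ∈ s, H r + ‖∑ r ∈ s, (H r : ℂ) * e r‖) * ∑ r ∈ s, ‖V r‖ ^ 2 / H r

/-- **Row POT** (medium), induction on the list. The functional `h ↦ (∑ h_r + ‖∑ h_r e_r‖)/2` is monotone
for `0 ≤ h ≤ h'` (as `‖∑ h e‖ ≤ ‖∑ h' e‖ + ∑ (h' - h)`), homogeneous and `≤ ∑ h`; the sets
`{x ∈ Y | rc = r}` are disjoint, so the sum of their masses is at most the mass of `Y`. -/
def POT_stmt : Prop := ∀ (X : Type) (n sh : ℕ) (ζ η : ℝ) (R : X → ℕ), 0 ≤ η → η ≤ 1 →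
  ∀ (L : List ℕ) (Y : Finset X) (w : X → ℝ), (∀ x ∈ Y, 0 ≤ w x) →
    η * ∑ x ∈ Y, w x ≤ pot n sh ζ η R w L Y ∧ pot n sh ζ η R w L Y ≤ ∑ x ∈ Y, w x ∧
    (∀ w' : X → ℝ, (∀ x ∈ Y, w x ≤ w' x) →
      pot n sh ζ η R w L Y ≤ pot n sh ζ η R w' L Y) ∧
    (∀ t : ℝ, 0 ≤ t → pot n sh ζ η R (fun x => t * w x) L Y = t * pot n sh ζ η R w L Y)

/-! ### Group B: the energy inequality -/

/-- **Row ST1** (medium), from CHR, CHI, FLP. Let `i = B-1-a` (`< n`, `n-1-i = n-B+a`), `ρ = r 3^(n-a) - sh`,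
`p' = Psi i ρ p`. For `y ∈ Y`: `0 ≤ R y - ρ < 3^(n-a)`, so `u' - u = -2 (sg) (R y - ρ) 3^(n-B+a)` has
absolute value `< 2 * 3^(2n-B)`; divided by `3^(2n-κ)` this is `≤ 2 * 3^κ / 3^B`: first claim by CHI.
Phase: `ch x (u' - u) = exp (2πi (-(sg) 2 ζ (θ - r)))` with `θ = (R y + sh)/3^(n-a)`, and if
`rc n sh b (R y) = r'` then `θ ∈ [r'/3^(b-a), (r'+1)/3^(b-a))`; so it differs from
`exp (2πi (sg) 2 ζ r) * exp (-2πi (sg) 2 ζ r'/3^(b-a))` by at most `2π * (3/4) / 3^g ≤ 5/3^g`. Take `e = ph` or its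
conjugate according to `sg`; the factor `exp (2πi (sg) 2 ζ r)` does not change the norm. The weights
differ by `|wt' - wt| ≤ (exp (2 * 3^κ/3^B) - 1) wt ≤ 3 * 3^κ/3^B * wt` (`e^y - 1 ≤ 3y/2` for `0 ≤ y ≤ 2/3`).
All values `rc n sh b (R y)` are `< 3^(n+1)` (`R y + sh < 3 * 3^n`), so `Y` is the union of its parts. -/
def ST1_stmt : Prop := ∀ (n : ℕ) (c : Cfg n) (κ B a b g sh x r : ℕ) (ζ : ℝ)
  (Y : Finset (Fin (3 ^ n))) (p : St n),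
  κ < B → B ≤ n → a ≤ κ → a + g ≤ b → b ≤ n → sh < 3 ^ n → (x : ℝ) = ζ * 3 ^ B →
  1 / 8 ≤ ζ → ζ ≤ 3 / 8 → (∀ y ∈ Y, rc n sh a (c.R y) = r) →
  (∀ y ∈ Y, Real.exp (-(2 * 3 ^ κ / 3 ^ B)) * wt c κ p y
        ≤ wt c κ (Psi (B - 1 - a) ((r : ℤ) * 3 ^ (n - a) - sh) p) y ∧
      wt c κ (Psi (B - 1 - a) ((r : ℤ) * 3 ^ (n - a) - sh) p) y
        ≤ Real.exp (2 * 3 ^ κ / 3 ^ B) * wt c κ p y) ∧
  ∃ e : ℕ → ℂ, ((∀ r', e r' = ph ζ (b - a) r') ∨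
      (∀ r', e r' = (starRingEnd ℂ) (ph ζ (b - a) r'))) ∧
    ‖VV c κ (x : ZMod (3 ^ (2 * n))) (Psi (B - 1 - a) ((r : ℤ) * 3 ^ (n - a) - sh) p) Y‖ ≤
      ‖∑ r' ∈ range (3 ^ (n + 1)),
          VV c κ (x : ZMod (3 ^ (2 * n))) p {y ∈ Y | rc n sh b (c.R y) = r'} * e r'‖
        + (3 * 3 ^ κ / 3 ^ B + 5 / 3 ^ g) * ∑ y ∈ Y, wt c κ p y

/-- **Row STP** (medium), from CHI, FLP, ALG, POT, ST1. Put `p' = Psi i ρ p`, `i = B-1-a`,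
`ρ = r 3^(n-a) - sh`, `H(p) = pot .. (wt c κ p) (a :: b :: l) Y`, `H_r'(p)` the potentials of the
children, `N(p) = ∑_(y ∈ Y) wt`, `V(p) = VV .. p Y`, `V_r'(p)`. By POT and the first part of ST1, `H(p') ≥ e^(-ε₃) H(p)`,
`ε₃ = 2 * 3^κ/3^B`; by the second part and `(s+t)² ≤ (1+δ) s² + (1+1/δ) t²`,
`‖V(p')‖²/H(p') ≤ e^(ε₃) ((1+δ) ‖∑ V_r' e_r'‖² + (1+1/δ) ε² N(p)²)/H(p)`, and `N²/H ≤ N/η`. Since the sum over `p` of a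
function of `p'` is the sum of the function of `p` (FLP),
`∑ ‖V‖²/H = (1/2) ∑_p (‖V(p)‖²/H(p) + ‖V(p')‖²/H(p'))`, and ALG with `H(p) ≥ (∑ H_r' + ‖∑ H_r' ph‖)/2` (definition of
`pot`, `le_max_left`) gives `‖∑ V_r'‖² + ‖∑ V_r' e_r'‖² ≤ 2 H(p) ∑ ‖V_r'‖²/H_r'`. (`‖∑ H conj(ph)‖ = ‖∑ H ph‖`.) If a child
or `Y` is empty everything is `0` (division by zero is zero). All weights are positive. -/
def STP_stmt : Prop := ∀ (n : ℕ) (c : Cfg n) (κ B a b g sh x r : ℕ) (l : List ℕ) (ζ η δ : ℝ)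
  (Y : Finset (Fin (3 ^ n))),
  κ < B → B ≤ n → a ≤ κ → a + g ≤ b → b ≤ n → sh < 3 ^ n → (x : ℝ) = ζ * 3 ^ B →
  1 / 8 ≤ ζ → ζ ≤ 3 / 8 → 0 < η → η ≤ 1 → 0 < δ → (∀ y ∈ Y, rc n sh a (c.R y) = r) →
  ∑ p, ‖VV c κ (x : ZMod (3 ^ (2 * n))) p Y‖ ^ 2
      / pot n sh ζ η c.R (wt c κ p) (a :: b :: l) Y ≤
    (1 + δ) * Real.exp (2 * 3 ^ κ / 3 ^ B) *
      (∑ r' ∈ range (3 ^ (n + 1)), ∑ p,
        ‖VV c κ (x : ZMod (3 ^ (2 * n))) p {y ∈ Y | rc n sh b (c.R y) = r'}‖ ^ 2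
          / pot n sh ζ η c.R (wt c κ p) (b :: l) {y ∈ Y | rc n sh b (c.R y) = r'})
    + (1 + 1 / δ) * Real.exp (2 * 3 ^ κ / 3 ^ B) * (3 * 3 ^ κ / 3 ^ B + 5 / 3 ^ g) ^ 2 / (2 * η)
      * ∑ p, ∑ y ∈ Y, wt c κ p y

/-- **Row ON1** (medium), from CHI, STP; induction on `l` (for all `a`, `r`, `Y`). `l = []`: `pot` is the mass `N`
and `‖V‖ ≤ N`. Step: STP and the induction hypothesis for the children
`Y_r' = {y ∈ Y | rc n sh b (R y) = r'}` (whose masses add up to at most the mass of `Y`), `1 ≤ Q`: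
`Q Q^l (1 + l E₀) + E₀ ≤ Q^(l+1) (1 + (l+1) E₀)`. -/
def ON1_stmt : Prop := ∀ (n : ℕ) (c : Cfg n) (κ B g sh x : ℕ) (ζ η δ Q E₀ : ℝ),
  κ < B → B ≤ n → sh < 3 ^ n → (x : ℝ) = ζ * 3 ^ B →
  1 / 8 ≤ ζ → ζ ≤ 3 / 8 → 0 < η → η ≤ 1 → 0 < δ →
  Q = (1 + δ) * Real.exp (2 * 3 ^ κ / 3 ^ B) →
  E₀ = (1 + 1 / δ) * Real.exp (2 * 3 ^ κ / 3 ^ B) * (3 * 3 ^ κ / 3 ^ B + 5 / 3 ^ g) ^ 2 / (2 * η) →
  ∀ (l : List ℕ) (a r : ℕ) (Y : Finset (Fin (3 ^ n))),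
    List.IsChain (fun i j => i + g ≤ j) (a :: l) → (∀ i ∈ a :: l, i ≤ κ) →
    (∀ y ∈ Y, rc n sh a (c.R y) = r) →
    ∑ p, ‖VV c κ (x : ZMod (3 ^ (2 * n))) p Y‖ ^ 2 / pot n sh ζ η c.R (wt c κ p) (a :: l) Y ≤
      Q ^ l.length * (1 + l.length * E₀) * ∑ p, ∑ y ∈ Y, wt c κ p y

/-- **Row ONE** (medium), from CHI, POT, ON1. `L = a :: l`, `V = ∑_r V_r` over the parts
`Y_r = {x | rc n sh a (R x) = r}`, `r < 3^(n+1)`, of everything (`R x + sh < 3^(n+1)`). Cauchy-Schwarz: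
`‖V‖² ≤ rpot * ∑_r ‖V_r‖²/pot_r` (`pot_r = 0` only if `Y_r` is empty), so
`∑_p ‖V‖²/rpot ≤ ∑_r ∑_p ‖V_r‖²/pot_r`, and ON1 with `δ = 1/n`, `ε₃ = 2 * 3^κ/3^B ≤ 1/n`,
`ε = 3 * 3^κ/3^B + 5/3^g`: `Q^l ≤ Q^n ≤ (1+1/n)^n e ≤ e²`, `l E₀ ≤ n (n+1) e^(1/n) ε²/(2η) ≤ (1+1/n) e^(1/n)/4 ≤ e/2`. Total:
`e² (1 + e/2) ≤ 18`. -/
def ONE_stmt : Prop := ∀ (n : ℕ) (c : Cfg n) (κ B g sh x : ℕ) (ζ η : ℝ) (L : List ℕ),
  1 ≤ n → κ < B → B ≤ n → sh < 3 ^ n → (x : ℝ) = ζ * 3 ^ B → 1 / 8 ≤ ζ → ζ ≤ 3 / 8 →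
  0 < η → η ≤ 1 → (2 : ℝ) * 3 ^ κ / 3 ^ B ≤ 1 / n →
  2 * (n : ℝ) ^ 2 * (3 * 3 ^ κ / 3 ^ B + 5 / 3 ^ g) ^ 2 ≤ η →
  L ≠ [] → List.IsChain (fun i j => i + g ≤ j) L → (∀ i ∈ L, i ≤ κ) → L.length ≤ n + 1 →
  ∑ p, ‖VV c κ (x : ZMod (3 ^ (2 * n))) p univ‖ ^ 2 / rpot n sh ζ η c.R (wt c κ p) L ≤
    18 * ∑ p, NN c κ p

/-! ### Group C: the potential is small if the branches branch (general weights) -/

/-- **Row NOD** (medium). Let `N = ∑_Y w`, `r_x = rc n sh b (R x)` (all `< 3^(n+1)`, so the parts `rc = r'` exhaust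
`Y`), `d = b - a`. `‖∑_r' N_r' ph r'‖² = ‖∑_x w_x ph r_x‖² = ∑_(x,y) w_x w_y cos (4π ζ (r_x - r_y)/3^d)`. As `Y` is in one
cell of level `a` and `a ≤ b ≤ n`, `r_x` and `r_y` are in `[r 3^d, (r+1) 3^d)`, so `|r_x - r_y| < 3^d`; if the pair is far,
`t = 2 ζ |r_x - r_y|/3^d` is in `[1/324, 3/4)` and `1 - cos (2π t) = 2 sin² (π t) ≥ 2 (1/162)² ≥ 4/60000` (`sin (π t) ≥ 2 t`
for `t ≤ 1/2`, `≥ 2 (1-t)` for `t ≥ 1/2`). So `‖·‖² ≤ N² (1 - 4 nc/60000) ≤ N² (1 - 2 nc/60000)²`, the left side is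
`≤ N (1 - nc/60000) ≤ N e^(-nc/60000)`. -/
def NOD_stmt : Prop := ∀ (X : Type) (n sh a b r : ℕ) (ζ : ℝ) (R : X → ℕ) (w : X → ℝ)
  (Y : Finset X), a + 4 ≤ b → b ≤ n → 1 / 8 ≤ ζ → ζ ≤ 3 / 8 → (∀ x, 0 < w x) →
  (∀ x, R x + sh < 3 ^ (n + 1)) → (∀ x ∈ Y, rc n sh a (R x) = r) →
  (∑ r' ∈ range (3 ^ (n + 1)), (∑ x ∈ Y with rc n sh b (R x) = r', w x)
    + ‖∑ r' ∈ range (3 ^ (n + 1)),
        ((∑ x ∈ Y with rc n sh b (R x) = r', w x : ℝ) : ℂ) * ph ζ (b - a) r'‖) / 2 ≤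
  (∑ x ∈ Y, w x) * Real.exp (-(nc n sh R w a b Y / 60000))

/-- **Row TRE** (medium), from POT, NOD; induction on `l` (for all `a`, `r`, `Y`, `v`). `l = []`: if `v ≤ 0` then
`e^(-v/60000) ≥ 1`, otherwise the last sum is everything. Step `a :: b :: l`: let `v' = v - nc n sh R w a b Y`,
`α = e^(-v'/60000) + η`, `G_r' = ∑_(x ∈ Y_r') w ind (ncs (b :: l) Y_r' x < v')`. The induction hypothesis is
`h_r' ≤ α N_r' + G_r'` for the potentials `h_r'` of the parts `Y_r' = {x ∈ Y | rc n sh b (R x) = r'}`; as the functional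
`h ↦ (∑ h_r' + ‖∑ h_r' ph‖)/2` is monotone (on `h ≥ 0`), subadditive and `≤ ∑ h`, it is
`≤ α (∑ N_r' + ‖∑ N_r' ph‖)/2 + ∑ G_r' ≤ α N e^(-nc/60000) + ∑ G_r' ≤ N (e^(-v/60000) + η) + ∑ G_r'` by NOD. For `x ∈ Y_r'` the set
`{y ∈ Y | rc (R y) = rc (R x)}` is `Y_r'`, so `∑ G_r'` is (at most) the sum in the claim. The other member of the
maximum is `η N`. -/
def TRE_stmt : Prop := ∀ (X : Type) (n sh : ℕ) (ζ η : ℝ) (R : X → ℕ) (w : X → ℝ),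
  1 / 8 ≤ ζ → ζ ≤ 3 / 8 → 0 ≤ η → η ≤ 1 → (∀ x, 0 < w x) → (∀ x, R x + sh < 3 ^ (n + 1)) →
  ∀ (l : List ℕ) (a r : ℕ) (Y : Finset X) (v : ℝ),
    List.IsChain (fun i j => i + 4 ≤ j) (a :: l) → (∀ i ∈ a :: l, i ≤ n) →
    (∀ x ∈ Y, rc n sh a (R x) = r) →
    pot n sh ζ η R w (a :: l) Y ≤ (∑ x ∈ Y, w x) * (Real.exp (-(v / 60000)) + η)
      + ∑ x ∈ Y, w x * ind (ncs n sh R w (a :: l) Y x < v)

/-- **Row CNC** (short-medium), induction on the list. Step `a :: b :: l`: `gf n sh R w a b Y x` depends only on `r' = rc n sh b (R x)`;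
summing over `x` in the part `Y_r'` with the induction hypothesis,
`∑ w e^(gfs - 2 ncs) ≤ e^(-2 nc) ∑_r' e^(gf r') N_r'`, and `e^t ≤ 1 + 2 t` on `[0, 1]`, `∑_r' N_r' gf r' = N nc`:
`≤ e^(-2 nc) N (1 + 2 nc) ≤ N`. -/
def CNC_stmt : Prop := ∀ (X : Type) (n sh : ℕ) (R : X → ℕ) (w : X → ℝ), (∀ x, 0 < w x) →
  ∀ (L : List ℕ) (Y : Finset X),
    ∑ x ∈ Y, w x * Real.exp (gfs n sh R w L Y x - 2 * ncs n sh R w L Y x) ≤ ∑ x ∈ Y, w x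

/-- **Row CMB** (short), from TRE, CNC. TRE with `v = U`; `ind (ncs < U) ≤ ind (gfs < 4U) + ind (ncs < U ∧ 4U ≤ gfs)` and on
the last event `gfs - 2 ncs > 2U`, so its mass is `≤ e^(-2U) ∑ w e^(gfs - 2 ncs) ≤ e^(-2U) N` by CNC. -/
def CMB_stmt : Prop := ∀ (X : Type) (n sh : ℕ) (ζ η : ℝ) (R : X → ℕ) (w : X → ℝ),
  1 / 8 ≤ ζ → ζ ≤ 3 / 8 → 0 ≤ η → η ≤ 1 → (∀ x, 0 < w x) → (∀ x, R x + sh < 3 ^ (n + 1)) →
  ∀ (l : List ℕ) (a r : ℕ) (Y : Finset X) (U : ℝ),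
    List.IsChain (fun i j => i + 4 ≤ j) (a :: l) → (∀ i ∈ a :: l, i ≤ n) →
    (∀ x ∈ Y, rc n sh a (R x) = r) →
    pot n sh ζ η R w (a :: l) Y ≤
      (∑ x ∈ Y, w x) * (Real.exp (-(U / 60000)) + η + Real.exp (-(2 * U)))
      + ∑ x ∈ Y, w x * ind (gfs n sh R w (a :: l) Y x < 4 * U)

/-- **Row BAL** (medium), induction on `l`. For `a ≤ b ≤ n`, `rc n sh a z = rc n sh b z / 3^(b-a)`, so the part with
`rc b (R y) = rc b (R x)` of the set `{y | rc a (R y) = rc a (R x)}` is `{y | rc b (R y) = rc b (R x)}`. One term (`a + 4 ≤ b ≤ n`, `P` the set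
`{y | rc a (R y) = rc a (R x)}`): if `good n sh a (R x)` then `|R y - R x| ≤ 3^(n-a-2)` implies `y ∈ P` (write `R x + sh = r 3^(n-a) + ρ`
with `3^(n-a-2) ≤ ρ < 8 * 3^(n-a-2)`), so the mass of `P` is `≥ mj (a+2) x`; if `|R y - R x| > 3^(n-a-3)` then
`|rc b (R y) - rc b (R x)| > 3^(b-a-3) - 1 ≥ 3^(b-a)/81`, so `y` is far; hence `gf ≥ 1 - mj (a+3) x/(mass of P) ≥ om a x`.
If not good, `0 ≤ gf`. -/
def BAL_stmt : Prop := ∀ (X : Type) [Fintype X] (n sh : ℕ) (R : X → ℕ) (w : X → ℝ),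
  (∀ x, 0 < w x) → ∀ (l : List ℕ) (a : ℕ) (x : X),
    List.IsChain (fun i j => i + 4 ≤ j) (a :: l) → (∀ i ∈ a :: l, i ≤ n) →
    ((a :: l).dropLast.map (fun i => ind (good n sh i (R x)) * om n R w i x)).sum ≤
      gfs n sh R w (a :: l) {y | rc n sh a (R y) = rc n sh a (R x)} x

/-- **Row CV1** (short-medium). Let `L = 3^(n-j-1)`, `k_x = R x / L`. If `x` is bad (the event in `ind`), the mass of
`{y | k_y = k_x}` is at most `mj (j+1) x < mj j x / K`, and `|R y - R x| ≤ 3 L` implies `|k_y - k_x| ≤ 3`. So the mass of the bad points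
with `k_x = k` is at most `1/K` times the mass of `{y | |k_y - k| ≤ 3}`; sum over `k`: each `y` is counted `7` times. -/
def CV1_stmt : Prop := ∀ (X : Type) [Fintype X] (n j : ℕ) (R : X → ℕ) (w : X → ℝ) (K : ℝ),
  (∀ x, 0 < w x) → 0 < K → j + 1 ≤ n →
  ∑ x, w x * ind (K * mj n R w (j + 1) x < mj n R w j x) ≤ 7 / K * ∑ x, w x

/-- **Row CV2** (short). `R x / 3^(n-2)` takes at most `9` values `9 .. 17`; the mass of each class with a bad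
point is `≤ mj 2 x < N/K`. -/
def CV2_stmt : Prop := ∀ (X : Type) [Fintype X] (n : ℕ) (R : X → ℕ) (w : X → ℝ) (K : ℝ),
  (∀ x, 0 < w x) → 0 < K → 2 ≤ n → (∀ x, 3 ^ n ≤ R x) → (∀ x, R x < 2 * 3 ^ n) →
  ∑ x, w x * ind (K * mj n R w 2 x < ∑ y, w y) ≤ 9 / K * ∑ x, w x

/-- **Row LGW** (short). With `y = log (mj (i+2)/mj (i+3)) ∈ [0, log K]`, `om i = 1 - e^(-y) ≥ y/(2 log K)` by concavity
(`1 - 1/K ≥ 1/2` at `y = log K`); telescope. -/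
def LGW_stmt : Prop := ∀ (X : Type) [Fintype X] (n m : ℕ) (R : X → ℕ) (w : X → ℝ) (K : ℝ)
  (x : X), (∀ x, 0 < w x) → 2 ≤ K →
  (∀ i < m, mj n R w (i + 2) x ≤ K * mj n R w (i + 3) x) →
  Real.log (mj n R w 2 x / mj n R w (m + 2) x) / (2 * Real.log K) ≤
    ∑ i ∈ range m, om n R w i x

/-- **Row UPP** (medium). `t_y = 3^n y + τ'`, `τ' = p.1 + R_x E(p.2)`: `u_y = t_y + (R_y - R_x) E`, `|E| ≤ 3^n/2` (`abs_E_le`), so if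
`|R_y - R_x| ≤ 3^(n-j)` then `nrm u_y ≥ nrm t_y - ρ`, `ρ = 3^(2n-j)/2`. The `t_y` are the `3^n` elements of a class mod `3^n` of
`ZMod (3^(2n))`: at most `2 * 2ρ/3^n + 1 ≤ 3 * 3^(n-j)` of them have `nrm t_y ≤ 2ρ` (weights `≤ 1`); the others have
`nrm u_y ≥ nrm t_y/2` and `∑_y exp (-nrm t_y/(2ℓ)) ≤ 2 ∑_(i ≥ 0) exp (-i 3^n/(2ℓ)) ≤ 2 (1 + 2ℓ/3^n) ≤ 6 * 3^(n-κ)` with
`ℓ = 3^(2n-κ)` (on each side of `0` the distances are at least `0, 3^n, 2 * 3^n, ..`). Total `≤ 9 * 3^(n-j)` as `j ≤ κ`. -/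
def UPP_stmt : Prop := ∀ (n : ℕ) (c : Cfg n) (κ j : ℕ) (p : St n) (x : Fin (3 ^ n)),
  j ≤ κ → κ ≤ n → mj n c.R (wt c κ p) j x ≤ 40 * 3 ^ (n - j)

/-! ### Group D: the average over the shift and the pattern -/

/-- **Row SHF** (medium), induction on the list from the front. For `i :: L` put `m = n - i - 2`. The residues
`(z + sh) mod 3^n` run over everything, so the sum is `∑_(t < 3^n)` with `t` for `z + sh` (all events depend on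
`t` mod `3^(n-i)` only). Write `t = t₁ 3^m + t₂`: the event of `i` depends on `t₁ % 9` (`t₁ < 3^(i+2)`), those of the later levels
(`≥ i + 2`) on `t₂ < 3^m` only. `(1/9) ∑_(d<9) exp (-ω ind (d ≠ 0, 8)) = 1 - (7/9)(1 - e^(-ω)) ≤ 1 - ω/3 ≤ e^(-ω/3)` for `0 ≤ ω ≤ 1`
(`(7/9)(1 - 1/e) ≥ 1/3`, concavity). Prove: for every list as in the statement with all levels `≥ i`,
`∑_(t < 3^(n-i)) exp (-∑ ..) ≤ 3^(n-i) exp (-(∑ ω)/3)` (events written with `t` for `z + sh`), then pass to `3^n`. -/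
def SHF_stmt : Prop := ∀ (n z : ℕ) (ω : ℕ → ℝ) (L : List ℕ), (∀ i, 0 ≤ ω i ∧ ω i ≤ 1) →
  List.IsChain (fun i j => i + 2 ≤ j) L → (∀ i ∈ L, i + 2 ≤ n) →
  ∑ sh ∈ range (3 ^ n), Real.exp (-(L.map (fun i => ind (good n sh i z) * ω i)).sum) ≤
    3 ^ n * Real.exp (-((L.map ω).sum / 3))

/-- **Row CHN** (short-medium), induction on `T` (`Fin.consEquiv`, `Fin.sum_univ_succ`). For `s_T(i) = ∑_(o : o 0 = i) ∏ φ` one has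
`s_(T+1)(i) = ∑_j φ 0 i j s'_T(j)`, so `∑_i s_(T+1)(i)² ≤ (∑_(i,j) φ 0 i j²) ∑_j s'_T(j)²` (Cauchy-Schwarz); `s_0 = 1`. Finally
`∑_i s_T(i) ≤ √G √(∑ s_T²) ≤ √G ∏ √(..) √G`. -/
def CHN_stmt : Prop := ∀ (G T : ℕ) (φ : ℕ → Fin G → Fin G → ℝ), (∀ t i j, 0 ≤ φ t i j) →
  ∑ o : Fin (T + 1) → Fin G, ∏ t : Fin T, φ t (o t.castSucc) (o t.succ) ≤
    G * ∏ t ∈ range T, √(∑ i, ∑ j, φ t i j ^ 2)

/-- **Row PT1** (medium). `pick t` is increasing in `t ≤ T` (`pick t < 2g(t+1) ≤ pick (t+1)`); for two consecutive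
kept indices `t < t'`, `pick t' ≥ pick (t+1) ≥ pick t + g`; for `t < T`, `pick t + g ≤ 2gT + g ≤ κ`. -/
def PT1_stmt : Prop := ∀ (g κ T : ℕ) (o : Fin (T + 1) → Fin (2 * g)), 1 ≤ g →
  2 * g * T + g ≤ κ →
  pat g κ o ≠ [] ∧ List.IsChain (fun i j => i + g ≤ j) (pat g κ o) ∧ (∀ i ∈ pat g κ o, i ≤ κ) ∧
  (pat g κ o).length ≤ T + 1 ∧ (∀ i ∈ (pat g κ o).dropLast, i + g ≤ κ) ∧
  (∀ ω : ℕ → ℝ, ((pat g κ o).dropLast.map ω).sum =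
    ∑ t ∈ range T, ind (pick g o t + g ≤ pick g o (t + 1)) * ω (pick g o t))

/-- **Row PT2** (medium), from CHN, PT1. `exp (-(sum)/3) = ∏_(t<T) φ t (o t) (o (t+1))`,
`φ t i j = exp (-(1/3) ind (i ≤ j + g) ω (2gt + i))` (kept means `2gt + i + g ≤ 2g(t+1) + j`). For each `i < 2g` at least half of
the `j < 2g` satisfy `i ≤ j + g`, so `∑_(i,j) φ² ≤ (2g)² - g (1 - e^(-2/3)) ∑_i ω_i ≤ (2g)² (1 - (∑_i ω (2gt+i))/(10 g))`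
(`1 - e^(-2ω/3) ≥ (1 - e^(-2/3)) ω`, `(1 - e^(-2/3))/4 ≥ 1/10`), the square root is `≤ 2g exp (-(∑_i ω (2gt+i))/(20 g))`. -/
def PT2_stmt : Prop := ∀ (g κ T : ℕ) (ω : ℕ → ℝ), 1 ≤ g → 2 * g * T + g ≤ κ →
  (∀ i, 0 ≤ ω i ∧ ω i ≤ 1) →
  ∑ o : Fin (T + 1) → Fin (2 * g), Real.exp (-(((pat g κ o).dropLast.map ω).sum / 3)) ≤
    (2 * g : ℝ) ^ (T + 1) * Real.exp (-((∑ i ∈ range (2 * g * T), ω i) / (20 * g)))

/-- **Row AVG** (short), from SHF, PT1, PT2: sum over the shifts first (`dropLast` of a chain is a chain). -/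
def AVG_stmt : Prop := ∀ (n g κ T z : ℕ) (ω : ℕ → ℝ), 2 ≤ g → 2 * g * T + g ≤ κ → κ ≤ n →
  (∀ i, 0 ≤ ω i ∧ ω i ≤ 1) →
  ∑ o : Fin (T + 1) → Fin (2 * g), ∑ sh ∈ range (3 ^ n),
      Real.exp (-((pat g κ o).dropLast.map (fun i => ind (good n sh i z) * ω i)).sum) ≤
    (2 * g : ℝ) ^ (T + 1) * 3 ^ n *
      Real.exp (-((∑ i ∈ range (2 * g * T), ω i) / (20 * g)))

/-- **Row TW1** (medium), from CHI, CMB, BAL, PT1. Let `L = pat g κ o = a :: l`, `w = wt c κ p`. CMB for the parts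
`Y_r = {x | rc n sh a (R x) = r}` (`R x + sh < 3^(n+1)`); for `x ∈ Y_r`, `Y_r = {y | rc a (R y) = rc a (R x)}`, so `gfs ≥ S x` with
`S x` the sum in the statement (BAL), `ind (gfs < 4U) ≤ ind (S x < 4U) ≤ exp (4U - S x)`, used for `x` outside the set `Z`; inside
use `ind ≤ 1`. Sum over `r`. -/
def TW1_stmt : Prop := ∀ (n : ℕ) (c : Cfg n) (κ g T sh : ℕ) (ζ η U : ℝ) (p : St n)
  (o : Fin (T + 1) → Fin (2 * g)) (Z : Finset (Fin (3 ^ n))),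
  κ ≤ n → 4 ≤ g → 2 * g * T + g ≤ κ → sh < 3 ^ n → 1 / 8 ≤ ζ → ζ ≤ 3 / 8 → 0 < η → η ≤ 1 →
  rpot n sh ζ η c.R (wt c κ p) (pat g κ o) ≤
    NN c κ p * (Real.exp (-(U / 60000)) + η + Real.exp (-(2 * U))) + ∑ x ∈ Z, wt c κ p x
    + ∑ x ∈ univ \ Z, wt c κ p x * Real.exp (4 * U - ((pat g κ o).dropLast.map
        (fun i => ind (good n sh i (c.R x)) * om n c.R (wt c κ p) i x)).sum)

/-- **Row TWO** (medium), from CHI, CV1, CV2, LGW, UPP, AVG, TW1. Sum TW1 over `(o, sh)` (there are `(2g)^(T+1) 3^n` pairs) with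
`Z = {x | K mj 2 x < N, or K mj (j+1) x < mj j x for some 2 ≤ j < 2gT + 2}`, of mass `≤ (7 * 2gT + 9)/K * N ≤ 16 n/K * N` (CV1, CV2).
For `x ∉ Z`, AVG with `ω i = om n c.R w i x ∈ [0,1]` and LGW (`m = 2gT`), UPP (`j = 2gT + 2 ≤ κ`):
`W = ∑_(i < 2gT) om ≥ (log (N/K) - log (40 * 3^(n-2gT-2)))/(2 log K)`, and `N ≥ e^y 3^(n-κ)`, `κ - 2gT ≤ 3g`,
`log 40 + (3g-2) log 3 ≤ 4g` give `W ≥ (y - log K - 4g)/(2 log K)`, so `exp (4U - W/(20g))` is at most the last term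
of `et`. (`om` is in `[0,1]` as `mj (i+3) ≤ mj (i+2)`; `16 n ≥ 14 g T + 9` since `2gT + g ≤ κ ≤ n` and `g ≥ 4`.) -/
def TWO_stmt : Prop := ∀ (n : ℕ) (c : Cfg n) (κ g T : ℕ) (ζ η y U K : ℝ) (p : St n),
  κ ≤ n → 4 ≤ g → 2 * g * T + g ≤ κ → κ ≤ 2 * g * T + 3 * g → 2 ≤ K →
  1 / 8 ≤ ζ → ζ ≤ 3 / 8 → 0 < η → η ≤ 1 → hv c κ y p →
  ∑ o : Fin (T + 1) → Fin (2 * g), ∑ sh ∈ range (3 ^ n),
      rpot n sh ζ η c.R (wt c κ p) (pat g κ o) ≤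
    (2 * g : ℝ) ^ (T + 1) * 3 ^ n * (NN c κ p * (η + et n g y U K))

/-- **Row MPP** (medium), from CHI, POT, ONE, PT1, TWO. `B = Nat.log 3 (8x)`, `ζ = x/3^B ∈ [1/8, 3/8]`; `B ≤ n` from `8x ≤ 3^n`, and
`8x < 3^(B+1)`, `x ≥ 3n 3^κ` give `κ < B`, `3^κ/3^B < 3 * 3^κ/(8x) ≤ 1/(8n)`. `5/3^g ≤ (5/9) 3^κ/x`. So
`ε = 3 * 3^κ/3^B + 5/3^g ≤ 2 * 3^κ/x`; take `η = 8 n² 9^κ/x² ≤ 8/9`, then `2 n² ε² ≤ η`. ONE for every pair `(o, sh)` (`L = pat g κ o`),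
summed over the `P = (2g)^(T+1) 3^n` pairs: `∑_p ‖V‖² ∑_(o,sh) 1/rpot ≤ 18 P ∑ NN`. For heavy `p`,
`∑_(o,sh) 1/rpot ≥ P²/∑_(o,sh) rpot ≥ P/(NN (η + et))` (Cauchy-Schwarz, TWO; `rpot ≥ η NN > 0` by POT). -/
def MPP_stmt : Prop := ∀ (n : ℕ) (c : Cfg n) (κ g T x : ℕ) (y U K : ℝ),
  1 ≤ n → κ ≤ n → 4 ≤ g → 2 * g * T + g ≤ κ → κ ≤ 2 * g * T + 3 * g → 2 ≤ K →
  3 * n * 3 ^ κ ≤ x → 9 * x ≤ 3 ^ (g + κ) → 8 * x ≤ 3 ^ n →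
  ∑ p, ind (hv c κ y p) * (‖VV c κ (x : ZMod (3 ^ (2 * n))) p univ‖ ^ 2 / NN c κ p) ≤
    18 * (8 * (n : ℝ) ^ 2 * 9 ^ κ / (x : ℝ) ^ 2 + et n g y U K) * ∑ p, NN c κ p

/-! ### Group E: Fourier inversion -/

/-- **Row PSV** (medium), from CHR. `D v = ∑_x a_x h(u_x - v)` with `h t = ind (t.val < L) - ind ((t - L).val < L)`. The transform
`∑_v D v ch ξ v` is `(∑_x a_x ch ξ (u_x)) * conj (∑_t h t ch ξ t)` (`v = u - t`), and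
`∑_t h t ch ξ t = (∑_(d<L) ch ξ d) (1 - ch ξ L)`. Parseval: `∑_v |D v|² = (1/M) ∑_ξ |∑_v D v ch ξ v|²` (orthogonality
`∑_ξ ch ξ v = M` or `0`; `ZMod.dft`, `AddChar.sum_mulShift`). -/
def PSV_stmt : Prop := ∀ (X : Type) [Fintype X] (M L : ℕ) [NeZero M] (a : X → ℝ)
  (u : X → ZMod M), L ≤ M →
  ∑ v : ZMod M, (∑ x, a x * (ind ((u x - v).val < L) - ind ((u x - v - (L : ZMod M)).val < L))) ^ 2
    = (∑ ξ : ZMod M, ‖∑ x, (a x : ℂ) * ch ξ (u x)‖ ^ 2 * mult L ξ) / M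

/-- **Row MUL** (medium), from CHR. `‖∑_(d<L) ch‖ ≤ L`, `‖1 - ch ξ L‖ ≤ 2`; with `s = valMinAbs ξ`,
`‖1 - ch ξ L‖ = |1 - e^(2πi s L/M)| ≤ 2π|s|L/M`; `‖1 - ch ξ 1‖ = 2|sin (π s/M)| ≥ 4|s|/M` as `|s| ≤ M/2`, and
`(∑_(d<L) ch ξ d)(1 - ch ξ 1) = 1 - ch ξ L`. -/
def MUL_stmt : Prop := ∀ (M L : ℕ) [NeZero M] (ξ : ZMod M),
  mult L ξ ≤ 4 * (L : ℝ) ^ 2 ∧ mult L ξ ≤ (2 * Real.pi * nrm ξ * L / M) ^ 2 * (L : ℝ) ^ 2 ∧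
  nrm ξ ^ 2 * mult L ξ ≤ (M : ℝ) ^ 2 ∧ 0 ≤ mult L ξ

/-- **Row NRM** (short). A value of `natAbs (valMinAbs)` is taken at most twice and is `≤ M`. -/
def NRM_stmt : Prop := ∀ (M : ℕ) [NeZero M] (f : ℕ → ℝ), (∀ i, 0 ≤ f i) →
  ∑ ξ : ZMod M, f ξ.valMinAbs.natAbs ≤ 2 * ∑ i ∈ range (M + 1), f i

/-- **Row SMU** (medium), from MUL, NRM. `M = 3^(2n)`, `L = 3^(2n-k-1)`, `M = 3^(k+1) L`, `X = nrm ξ`, `x₀ = 3n 3^κ`. Every `ξ` is in one of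
the ranges (a) `X < x₀`: `F ≤ 1`, `∑ mult ≤ 2 ∑_(X<x₀) 4π² X² L⁴/M² ≤ (8π²/3) x₀³ L⁴/M² ≤ 27 x₀³ L²/9^(k+1)`
`= 81 n³ 9^(κ-k) 3^κ L²`; (b) `x₀ ≤ X ≤ x₁`: `F ≤ 18 (8 n² 9^κ/X² + e)`, and `∑_(X≥1) mult/X² ≤ 2 (3^k 4π² L⁴/M² + ∑_(X>3^k) 4L²/X²)`
`≤ (8π²/9 + 8) L²/3^k ≤ 17 L²/3^k`, the number of `ξ` with `1 ≤ X ≤ x₁` is `≤ 2x₁` and `mult ≤ 4L²`: together
`2448 n² 9^κ L²/3^k + 144 e x₁ L²`; (c) `X > x₁`: `F ≤ 1`, `∑ mult ≤ 2 ∑_(X>x₁) M²/X² ≤ 2 M²/x₁ = 18 * 9^k L²/x₁`. -/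
def SMU_stmt : Prop := ∀ (n κ k x₁ : ℕ) (e : ℝ) (F : ZMod (3 ^ (2 * n)) → ℝ),
  1 ≤ n → κ ≤ k → k + 1 ≤ 2 * n → 0 ≤ e → 1 ≤ x₁ → (∀ ξ, 0 ≤ F ξ ∧ F ξ ≤ 1) →
  (∀ ξ, 3 * n * 3 ^ κ ≤ nrm ξ → nrm ξ ≤ x₁ →
    F ξ ≤ 18 * (8 * (n : ℝ) ^ 2 * 9 ^ κ / nrm ξ ^ 2 + e)) →
  ∑ ξ, mult (3 ^ (2 * n - (k + 1))) ξ * F ξ ≤
    ((3 : ℝ) ^ (2 * n - (k + 1))) ^ 2 * 3 ^ κ * kap n (k - κ) (x₁ / 3 ^ κ) e

/-- **Row DSM** (medium), from CHR, CHI, MPP, PSV, SMU. `F ξ = (∑_p ind (hv) ‖VV ξ p univ‖²/NN p)/∑ NN ≤ 1` since `‖VV‖ ≤ NN`; for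
`3n 3^κ ≤ nrm ξ ≤ x₁`, `ξ = ± x` with `x = natAbs (valMinAbs ξ)` and `‖VV (-ξ)‖ = ‖VV ξ‖` (real weights, CHR), so MPP is the hypothesis of SMU
with `e = et n g y U K`. By PSV (`a = wt c κ p`, `u = uv c p`, `L = 3^(2n-k-1)`),
`∑_v DD² = (1/M) ∑_ξ ‖VV ξ p univ‖² mult ξ`. (`et ≥ 0`.) -/
def DSM_stmt : Prop := ∀ (n : ℕ) (c : Cfg n) (κ k g T x₁ : ℕ) (y U K : ℝ),
  1 ≤ n → κ ≤ k → k + 1 ≤ n → 4 ≤ g → 2 * g * T + g ≤ κ → κ ≤ 2 * g * T + 3 * g → 2 ≤ K →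
  1 ≤ x₁ → 9 * x₁ ≤ 3 ^ (g + κ) → 8 * x₁ ≤ 3 ^ n →
  ∑ p, ind (hv c κ y p) * ((∑ v, DD c κ k p v ^ 2) / NN c κ p) ≤
    ((3 : ℝ) ^ (2 * n - (k + 1))) ^ 2 * 3 ^ κ / 3 ^ (2 * n)
      * kap n (k - κ) (x₁ / 3 ^ κ) (et n g y U K) * ∑ p, NN c κ p

/-! ### Group F: from windows to cells -/

/-- **Row WI1** (medium). As `c.G = univ`, `mu c z = 1/(6^n 3^(2n))`, and `bR c 0 z = 1`, so the atom of `z = ((x, w), τ)` for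
`obs c (k-A) 0` is `{((y, w), τ) | cell n (k-A) (uv c p y) = q}`, `p = (τ, w)`, `q = cell n (k-A) (uu c z)`, with `a(q) = ac c (k-A) p q` points. `Uf` at `z` is
`(1/a(q)) ∑_(t<3^k) ∑_(a<2) |a'(3t+a) - a'(3t+a+1)|`, `a' m` the number of points of the atom with `cell n (k+1) = m`: this is
`ac c (k+1) p m` if `m / 3^(A+1) = q` and `0` otherwise, so only `t / 3^A = q` counts and the sum is at most the sum over `m` in the claim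
(`3t + a = 3^(A+1) q + m`, `m + 1 < 3^(A+1)`). `Lam c (S/n) A k z` implies `S ≤ lam c (k-A) z = log (a(q)/3^(n-(k-A)))`. Sum over `z`: each
`(p, q)` occurs `a(q)` times. -/
def WI1_stmt : Prop := ∀ (n : ℕ) (c : Cfg n) (k A : ℕ) (S : ℝ), 1 ≤ n → c.G = univ →
  A ≤ k → k + 1 ≤ n →
  ex (mu c) (fun z => Uf c (obs c (k - A) 0) k z * ind (Lam c (S / n) A k z)) ≤
    (∑ p : St n, ∑ q ∈ range (3 ^ (k - A)),
      ind (Real.exp S * 3 ^ (n - (k - A)) ≤ ac c (k - A) p q) *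
        ∑ m ∈ range (3 ^ (A + 1) - 1), |ac c (k + 1) p (3 ^ (A + 1) * q + m)
          - ac c (k + 1) p (3 ^ (A + 1) * q + m + 1)|) / (6 ^ n * 3 ^ (2 * n))

/-- **Row WI2** (medium), from CHI. `ℓ = 3^(2n-κ)`, `L = 3^(2n-k-1) = ℓ/3^(A+1)`, `κ = k - A`, `j = 3^(A+1) q + m`, `p' = (p.1 - v₀, p.2)`:
`uv c p' x = uv c p x - v₀` and `(uv c p x - j L).val < L` iff `cell n (k+1) (uv c p x) = j`. Both `v₀` and `j L` are in the cell `q` of level `κ`,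
so `χ₀ = chi ℓ (j L - v₀) ≥ e⁻¹ ≥ 1/3`; if `cell n (k+1) (uv c p x)` is `j` or `j + 1` then `uv c p x = j L + d`, `0 ≤ d < 2L`, and
`|wt c κ p' x - χ₀| ≤ (e^(2L/ℓ) - 1) χ₀ ≤ 4 (L/ℓ) χ₀` (CHI, `2L/ℓ ≤ 2/3`). So
`|DD c κ k p' (j L - v₀) - χ₀ (ac j - ac (j+1))| ≤ 4 (L/ℓ) χ₀ (ac j + ac (j+1))`; divide by `χ₀`. Second claim: if
`cell n κ (uv c p x) = q` then `wt c κ p' x ≥ e⁻¹`. -/
def WI2_stmt : Prop := ∀ (n : ℕ) (c : Cfg n) (k A : ℕ) (p : St n) (v₀ : ZMod (3 ^ (2 * n)))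
  (S : ℝ), A ≤ k → k + 1 ≤ n →
  (∀ m < 3 ^ (A + 1) - 1,
    |ac c (k + 1) p (3 ^ (A + 1) * cell n (k - A) v₀ + m)
        - ac c (k + 1) p (3 ^ (A + 1) * cell n (k - A) v₀ + m + 1)| ≤
      3 * |DD c (k - A) k (p.1 - v₀, p.2)
        ((((3 ^ (A + 1) * cell n (k - A) v₀ + m) * 3 ^ (2 * n - (k + 1)) : ℕ) :
          ZMod (3 ^ (2 * n))) - v₀)|
      + 4 / 3 ^ (A + 1) * (ac c (k + 1) p (3 ^ (A + 1) * cell n (k - A) v₀ + m)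
        + ac c (k + 1) p (3 ^ (A + 1) * cell n (k - A) v₀ + m + 1))) ∧
  (Real.exp S * 3 ^ (n - (k - A)) ≤ ac c (k - A) p (cell n (k - A) v₀) →
    hv c (k - A) (S - 1) (p.1 - v₀, p.2))

/-- **Row WIN** (medium), from WI1, WI2. For each `(p, q)` average the bound of WI2 over the `ℓ = 3^(2n-κ)` elements `v₀` with
`cell n κ v₀ = q` (`κ = k - A`). The second terms add up to at most `8/3^(A+1) ∑_p ∑_q ac c κ p q = 8/3^(A+1) 6^n 3^(2n)`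
(`∑_m (ac j + ac (j+1)) ≤ 2 ac c κ p q`). The first terms are at most
`(3/ℓ) ∑_p ∑_(v₀) ind (hv (p - v₀)) ∑_m |DD (p - v₀) (j L - v₀)|`, `j = 3^(A+1) cell n κ v₀ + m`; for fixed `v₀` replace `p` by `p + v₀`; then for
fixed `p` the pairs `(v₀, m)` give `j < 3^(k+1)` and `v = j L - v₀` with `nrm v < ℓ` (both in the same cell of level `κ`), and
`(v₀, m) ↦ (j, v)` is injective: `≤ 3^(k+1) ∑_v ind (nrm v < ℓ) |DD p v|`. -/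
def WIN_stmt : Prop := ∀ (n : ℕ) (c : Cfg n) (k A : ℕ) (S : ℝ), 1 ≤ n → c.G = univ →
  A ≤ k → k + 1 ≤ n →
  ex (mu c) (fun z => Uf c (obs c (k - A) 0) k z * ind (Lam c (S / n) A k z)) ≤
    3 / 3 ^ (2 * n - (k - A)) * 3 ^ (k + 1) / (6 ^ n * 3 ^ (2 * n)) *
      (∑ p, ind (hv c (k - A) (S - 1) p) *
        ∑ v, ind (nrm v < 3 ^ (2 * n - (k - A))) * |DD c (k - A) k p v|) + 3 / 3 ^ A

/-- **Row UFB** (medium), from CHI, DSM, WIN. `ℓ = 3^(2n-κ)`, `κ = k - A`, `L = 3^(2n-k-1)`, `y = S - 1`. Cauchy-Schwarz: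
`∑_v ind (nrm v < ℓ) |DD| ≤ √(2ℓ) √(∑ DD²)`, `∑_p ind √(∑_v DD²) ≤ √(∑ NN) √(∑_p ind (∑_v DD²)/NN) ≤ (∑ NN) L √(kap/ℓ)` (DSM,
`3^κ/3^(2n) = 1/ℓ`). `∑_p NN = 6^n ∑_v chi ℓ v ≤ 6^n (1 + 2ℓ) ≤ 3 * 6^n ℓ` (CHI; for fixed `x` and word `uv` runs over everything).
Total `3 √2 * 3 √kap ≤ 13 √kap`. -/
def UFB_stmt : Prop := ∀ (n : ℕ) (c : Cfg n) (k A g T x₁ : ℕ) (S U K : ℝ),
  1 ≤ n → c.G = univ → A ≤ k → k + 1 ≤ n → 4 ≤ g → 2 * g * T + g ≤ k - A →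
  k - A ≤ 2 * g * T + 3 * g → 2 ≤ K → 1 ≤ x₁ → 9 * x₁ ≤ 3 ^ (g + (k - A)) → 8 * x₁ ≤ 3 ^ n →
  ex (mu c) (fun z => Uf c (obs c (k - A) 0) k z * ind (Lam c (S / n) A k z)) ≤
    13 * √(kap n A (x₁ / 3 ^ (k - A)) (et n g (S - 1) U K)) + 3 / 3 ^ A

/-! ### Group G: finite scale theorem -/

/-- **Row LMT** (short). `lam c k z ≤ k log 3` (`lam_zero`, `lam_succ_le`), so `Lam c (S/n) A k z` is false on the support of `mu` if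
`(k-A) log 3 < S`. -/
def LMT_stmt : Prop := ∀ (n : ℕ) (c : Cfg n) (k A : ℕ) (S : ℝ), 1 ≤ n → A ≤ k → k ≤ n →
  ((k - A : ℕ) : ℝ) * Real.log 3 < S →
  ex (mu c) (fun z => Uf c (obs c (k - A) 0) k z * ind (Lam c (S / n) A k z)) = 0

/-- **Row PTH** (medium); compare `helper34.Cant.PATH` and `PATHkey`. On the support of `mu`, if `4S ≤ lam n` then
`lam (n-A₂) ≥ 3S` (`lam_succ_le`). Let `k₀` be the last `k ≤ n - A₂` with `lam k ≤ 2S`; `k₀ ≥ A` since `lam k ≤ k log 3`. For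
`k₀ < k < n - A₂`, `lam (k-A) ≥ lam k - A log 3 ≥ S`, so `Lam c (S/n) A k` holds (the word is typical because `c.G = univ`: `pm = 1/2^n`), and
`∑_(k₀<k<n-A₂) |lam (k+1) - lam k| ≥ 3S - (2S + log 3) ≥ S/2`. Markov and `lam_step` (`ε = S/n`). -/
def PTH_stmt : Prop := ∀ (n : ℕ) (c : Cfg n) (A A₂ : ℕ) (S : ℝ), 1 ≤ n → c.G = univ → 1 ≤ A →
  A + A₂ ≤ n → ((A : ℝ) + 1) * Real.log 3 ≤ S → (A₂ : ℝ) * Real.log 3 ≤ S →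
  ex (mu c) (fun z => ind (4 * S ≤ lam c n z)) ≤
    2 / S * ∑ k ∈ Ico A (n - A₂), 8 / 3 * ex (mu c)
      (fun z => Uf c (obs c (k - A) 0) k z * ind (Lam c (S / n) A k z))

/-- **Row CEL** (medium); compare `lam_small`. Split `c.G` according to `y ≤ lam (full c) n z` or not. For fixed `p = (τ, w)` the points with
`(x, w) ∈ c.G` have `cell n n (uu)` in a set of at most `2 Ycard c` cells (`⌊(yi + τ)/3^n⌋ - ⌊yi/3^n⌋ - ⌊τ/3^n⌋ ∈ {0, 1}`), and a cell of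
level `n` with `lam < y` contains fewer than `e^y` points. So the second part has at most `2 Ycard e^y` centres for each of the
`2^n 3^(2n)` pairs `p`. -/
def CEL_stmt : Prop := ∀ (n : ℕ) (c : Cfg n) (y : ℝ),
  (c.G.card : ℝ) / 6 ^ n ≤ ex (mu (full c)) (fun z => ind (y ≤ lam (full c) n z))
    + 2 * (c.G.image (fun x => yi c x / 3 ^ n)).card / 3 ^ n * Real.exp y

/-- **Row FP1** (medium; numbers). `m = Nat.clog 3 n`, `n ≤ 3^m`. `U = 8400000 m`, `K = 3^(125m)`, `g = 91m`, `S = Sm n = 2*10^13 m³`.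
`exp (-140m) ≤ 3^(-127m)`, `exp (-2U)` smaller, `16 n/K ≤ 3^(3-124m)`; `40 g log K = 455000 log 3 m² ≤ 500000 m²`,
`4U = 33600000 m` and `(S - 1 - log K - 4g)/(500000 m²) ≥ 4*10^7 m - 1`, so the last exponent is `≤ -6*10^6 m`. Total
`≤ 3^(-121m)`. -/
def FP1_stmt : Prop := ∀ (n m : ℕ), 2 ≤ m → n ≤ 3 ^ m →
  et n (91 * m) (2 * 10 ^ 13 * (m : ℝ) ^ 3 - 1) (8400000 * m) (3 ^ (125 * m)) ≤
    1 / 3 ^ (121 * m)

/-- **Row FP2** (short; numbers). `kap ≤ 81 * 3^(3m-60m) + 2448 * 3^(2m-30m) + 144 * 3^(-31m) + 18 * 3^(-30m) ≤ 3^(9-28m)`, so the left side is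
`≤ 13 * 3^(4.5-14m) + 3 * 3^(-30m) ≤ 3^(-12m)`. -/
def FP2_stmt : Prop := ∀ (n m : ℕ) (e : ℝ), 4 ≤ m → n ≤ 3 ^ m → 0 ≤ e → e ≤ 1 / 3 ^ (121 * m) →
  13 * √(kap n (30 * m) (3 ^ (90 * m)) e) + 3 / 3 ^ (30 * m) ≤ 1 / 3 ^ (12 * m)

/-- **Row FS1** (medium), from UFB, LMT, PTH, FP1, FP2. `m = Nat.clog 3 n`, `S = Sm n`, `A = 30m`, `A₂ = 61m`, `g = 91m`. For `k ∈ [A, n-A₂)`: if
`(k-A) log 3 < S` use LMT. Otherwise `k - A ≥ g`, `T = (k-A-g)/(2g)`, `x₁ = 3^(k-A+90m)`: `9x₁ ≤ 3^(g+k-A)` and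
`8x₁ ≤ 3^(k-A+90m+2) ≤ 3^n` for `m ≥ 2`; UFB, FP1, FP2 give `ex .. ≤ 3^(-12m) ≤ n^(-12)`. PTH: total
`≤ (2/S) n (8/3) n^(-12) ≤ n^(-11)`. (`n` large: `m ≥ 4`, `91m ≤ n`.) -/
def FS1_stmt : Prop := ∃ N₀ : ℕ, ∀ n ≥ N₀, ∀ c : Cfg n, c.G = univ →
  ex (mu c) (fun z => ind (4 * Sm n ≤ lam c n z)) ≤ 1 / (n : ℝ) ^ 11

/-- **Row FSC** (medium), from CEL, FS1. CEL with `y = 4 Sm n` and FS1 for `full c`:
`n^(-6) ≤ n^(-11) + 2 Y 3^(-n) e^(4 Sm n)`, so `Y ≥ 3^n e^(-4 Sm n) n^(-6)/4`; `Nat.clog 3 n ≤ log n/log 3 + 1 ≤ 2 log n` for large `n`, so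
`4 Sm n + 6 log n + log 4 ≤ 10^15 (log n)^3`. -/
def FSC_stmt : Prop := ∃ N₀ : ℕ, ∀ n ≥ N₀, ∀ c : Cfg n, (6 : ℝ) ^ n / n ^ 6 ≤ c.G.card →
  3 ^ n * Real.exp (-(10 ^ 15 * Real.log n ^ 3)) ≤ ((c.G.image (fun x => yi c x / 3 ^ n)).card : ℝ)

/-! ### Group H: the reduction -/

/-- **Row FEW** (medium); compare the proof of `few_cells` in `helper43.Cant.RB`, which is the same with `d^t` in place of the gauge and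
`hausdorffMeasure t B = 0` in place of `mkMetric (gau C₁) B ≠ ⊤` (`mkMetric_apply`). For every `δ > 0` there is a cover of `B` by sets of diameter `≤ δ`
with `∑ gau C₁ (diam) ≤ M₀ = mkMetric (gau C₁) B + 1`. Take `δ = min (lam/3^p) (lam/3^(p₁))` with `p₁` such that
`log (3^n/lam) ≥ n` for `n ≥ p₁` (`log 3 > 1`). A set of diameter `d ∈ (lam/3^(n+1), lam/3^n]`, `n ≥ p₁`, has
`gau C₁ d ≥ lam/3^(n+1) * exp (C₁ (log n)^3)` (`log (log (1/d)) ≥ log n ≥ 0`), so there are at most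
`M₀ 3^(n+1)/lam * exp (-C₁ (log n)^3)` of them; each meets at most `3` cells; the `i`-th set of diameter `0` is used at level
`p' + i`, `p' = max p p₁`: at most `3` more cells at each level, and `3 ≤ C 3^n exp (-C₁ (log n)^3)` for all `n ≥ 1` if `C` is large
(the right side tends to infinity). Levels `< p'` get the empty set. -/
def FEW_stmt : Prop := ∀ (B : Set ℝ) (C₁ o lam : ℝ), 0 ≤ C₁ → 0 < lam →
  MeasureTheory.Measure.mkMetric (gau C₁) B ≠ ⊤ →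
  ∃ C : ℝ, ∀ p : ℕ, ∃ Z : ℕ → Finset ℤ,
    (∀ n ≥ p, ((Z n).card : ℝ) ≤ C * (3 ^ n * Real.exp (-(C₁ * Real.log n ^ 3)))) ∧
    ∀ y ∈ B, ∃ n ≥ p, ⌊3 ^ n * (y - o) / lam⌋ ∈ Z n

/-- **Row CFG** (medium); this is `config_of_piece` (`helper97.Cant.RX`) with `s = 1` (`many_cells` with `s = 1`;
`MeasureTheory.hausdorffMeasure_real`), and with the conclusion of `few_cells` as a hypothesis with a general function `f` in place of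
`3^(t n)`. Copy the proof. -/
def CFG_stmt : Prop := ∀ (S' : Set ℝ) (r : ℝ → ℝ) (o lam : ℝ), 0 < lam →
  (∀ x ∈ S', lam ≤ r x ∧ r x < 2 * lam) → (∀ x ∈ S', o ≤ x ∧ x < o + lam) →
  ∀ (B : Set ℝ), (∀ x ∈ S', ∀ c ∈ cantorSet, x + r x * (c - 1 / 2) ∈ B) →
  MeasureTheory.volume S' ≠ 0 → ∀ (f : ℕ → ℝ) (C : ℝ),
  (∀ p : ℕ, ∃ Z : ℕ → Finset ℤ, (∀ n ≥ p, ((Z n).card : ℝ) ≤ C * f n) ∧
    ∀ y ∈ B, ∃ n ≥ p, ⌊3 ^ n * (y - o) / lam⌋ ∈ Z n) →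
  ∀ p0 : ℕ, ∃ n ≥ p0, ∃ c : Cfg n,
    (3 : ℝ) ^ n * 2 ^ n / (4 * ((n : ℝ) + 1) ^ 4) ≤ c.G.card ∧
    ((c.G.image (fun x => yi c x / 3 ^ n)).card : ℝ) ≤ 7 * C * f n

/-- **Row FIN** (medium), from FSC, FEW, CFG. `C = 10^15 + 1`. Suppose `mkMetric (gau C) B ≠ ⊤`. Choose `r`; the sets
`{x ∈ S | 2^l ≤ r x < 2^(l+1), m 2^l ≤ x < (m+1) 2^l}` (`l m : ℤ`) cover `S`, so one of them has positive measure
(`MeasureTheory.measure_iUnion_null`). FEW and CFG (`lam = 2^l`, `o = m 2^l`, `f n = 3^n exp (-(C (log n)^3))`) give configurations with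
arbitrarily large `n` with `|G| ≥ 6^n/(4 (n+1)^4) ≥ 6^n/n^6` and `Ycard ≤ 7 C' 3^n exp (-(10^15 + 1)(log n)^3)`, which contradicts FSC for
large `n`. -/
def FIN_stmt : Prop := ∃ C : ℝ, 0 < C ∧ ∀ S B : Set ℝ, MeasureTheory.volume S ≠ 0 →
  (∀ x ∈ S, ∃ r : ℝ, 0 < r ∧ ∀ c ∈ cantorSet, x + r * (c - 1 / 2) ∈ B) →
  MeasureTheory.Measure.mkMetric (gau C) B = ⊤

end Pool.Agent.GA
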